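import Pool.Agent.Helper90.C75.MdlQ

/-!
MP_c75db0, tensor-quadratic models: control values on `{0, c, 1}^D`, product by recursion over the
directions.
-/

set_option autoImplicit false

namespace Pool.Agent.Helper90.C75

open Finset

/-- controls of a tensor-quadratic model in `D` variables; the last factor is the outermost
direction -/
def Vt : ℕ → Type
  | 0 => Unit
  | D + 1 => Vt D × Fin 3

instance Vt.fintype : (D : ℕ) → Fintype (Vt D)
  | 0 => inferInstanceAs (Fintype Unit)
  | D + 1 => @instFintypeProd _ _ (Vt.fintype D) _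

/-- the weights at the point `t` -/
noncomputable def wtT : (D : ℕ) → (ℕ → ℝ) → Vt D → ℝ
  | 0, _ => fun _ => 1
  | D + 1, t => fun v => wtT D t v.1 * bt (t D) v.2

theorem sum_Vt_succ (D : ℕ) {M : Type*} [AddCommMonoid M] (f : Vt (D + 1) → M) :
    ∑ v, f v = ∑ v : Vt D, ∑ i : Fin 3, f (v, i) := Fintype.sum_prod_type f

theorem Wts.T {D : ℕ} {t : ℕ → ℝ} (h0 : ∀ j < D, 0 ≤ t j) (h1 : ∀ j < D, t j ≤ 1) :
    Wts (wtT D t) := by
  induction D with
  | zero =>
    refine ⟨fun _ => zero_le_one, ?_⟩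
    show ∑ _v : Unit, (1 : ℝ) = 1
    simp
  | succ D ih =>
    have hi := ih (fun j hj => h0 j (by omega)) (fun j hj => h1 j (by omega))
    have hb := Wts.bt (h0 D (by omega)) (h1 D (by omega))
    refine ⟨fun v => mul_nonneg (hi.nonneg _) (hb.nonneg _), ?_⟩
    rw [sum_Vt_succ, ← hi.sum]
    refine Finset.sum_congr rfl fun v _ => ?_
    show ∑ i : Fin 3, wtT D t v * C75.bt (t D) i = wtT D t v
    rw [← Finset.mul_sum, hb.sum, mul_one]

theorem avg_T_succ (D : ℕ) (t : ℕ → ℝ) (F : Vt (D + 1) → ℂ) :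
    avg (wtT (D + 1) t) F = avg (bt (t D)) (fun i => avg (wtT D t) (fun v => F (v, i))) := by
  unfold avg
  rw [sum_Vt_succ]
  simp only [Finset.mul_sum]
  rw [Finset.sum_comm]
  refine Finset.sum_congr rfl fun i _ => Finset.sum_congr rfl fun v _ => ?_
  show ((wtT D t v * bt (t D) i : ℝ) : ℂ) * F (v, i) = _
  push_cast
  ring

/-- the product of control values -/
noncomputable def mulT : (D : ℕ) → (Vt D → ℂ) → (Vt D → ℂ) → Vt D → ℂ
  | 0, F, G => fun v => F v * G v
  | D + 1, F, G => fun v =>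
    if v.2 = 1 then mulT D (fun u => F (u, 1)) (fun u => G (u, 1)) v.1
      - mulT D (fun u => F (u, 2) - F (u, 0)) (fun u => G (u, 2) - G (u, 0)) v.1 / 4
    else mulT D (fun u => F (u, v.2)) (fun u => G (u, v.2)) v.1

/-- bounds of the first differences and of the second differences in all directions -/
def DB : (D : ℕ) → (Vt D → ℂ) → (ℕ → ℝ) → (ℕ → ℝ) → Prop
  | 0, _, _, _ => True
  | D + 1, F, d, φ => (∀ v : Vt D, ‖F (v, 2) - F (v, 0)‖ ≤ d D) ∧
      (∀ v : Vt D, ‖F (v, 1) - (F (v, 0) + F (v, 2)) / 2‖ ≤ φ D) ∧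
      ∀ i : Fin 3, DB D (fun v => F (v, i)) d φ

/-- error of the product in one direction -/
noncomputable def Edir (d φ d' φ' : ℝ) : ℝ := (d * φ' + φ * d') / 10 + φ * φ' / 4

/-- error of the tensor product -/
noncomputable def errT : ℕ → (ℕ → ℝ) → (ℕ → ℝ) → (ℕ → ℝ) → (ℕ → ℝ) → ℝ
  | 0, _, _, _, _ => 0
  | D + 1, d, φ, d', φ' => Edir (d D) (φ D) (d' D) (φ' D) + 3 / 2 * errT D d φ d' φ'

theorem DB.sub {D : ℕ} {F G : Vt D → ℂ} {d φ d' φ' : ℕ → ℝ} (hF : DB D F d φ)
    (hG : DB D G d' φ') : DB D (fun v => F v - G v) (fun j => d j + d' j) (fun j => φ j + φ' j) := by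
  induction D with
  | zero => trivial
  | succ D ih =>
    obtain ⟨a1, a2, a3⟩ := hF
    obtain ⟨b1, b2, b3⟩ := hG
    refine ⟨fun v => ?_, fun v => ?_, fun i => ih (a3 i) (b3 i)⟩
    · have e : F (v, 2) - G (v, 2) - (F (v, 0) - G (v, 0))
          = (F (v, 2) - F (v, 0)) - (G (v, 2) - G (v, 0)) := by ring
      rw [e]
      exact (norm_sub_le _ _).trans (add_le_add (a1 v) (b1 v))
    · have e : F (v, 1) - G (v, 1) - (F (v, 0) - G (v, 0) + (F (v, 2) - G (v, 2))) / 2
          = (F (v, 1) - (F (v, 0) + F (v, 2)) / 2) - (G (v, 1) - (G (v, 0) + G (v, 2)) / 2) := by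
        ring
      rw [e]
      exact (norm_sub_le _ _).trans (add_le_add (a2 v) (b2 v))

theorem DB.add {D : ℕ} {F G : Vt D → ℂ} {d φ d' φ' : ℕ → ℝ} (hF : DB D F d φ)
    (hG : DB D G d' φ') : DB D (fun v => F v + G v) (fun j => d j + d' j) (fun j => φ j + φ' j) := by
  induction D with
  | zero => trivial
  | succ D ih =>
    obtain ⟨a1, a2, a3⟩ := hF
    obtain ⟨b1, b2, b3⟩ := hG
    refine ⟨fun v => ?_, fun v => ?_, fun i => ih (a3 i) (b3 i)⟩
    · have e : F (v, 2) + G (v, 2) - (F (v, 0) + G (v, 0))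
          = (F (v, 2) - F (v, 0)) + (G (v, 2) - G (v, 0)) := by ring
      rw [e]
      exact (norm_add_le _ _).trans (add_le_add (a1 v) (b1 v))
    · have e : F (v, 1) + G (v, 1) - (F (v, 0) + G (v, 0) + (F (v, 2) + G (v, 2))) / 2
          = (F (v, 1) - (F (v, 0) + F (v, 2)) / 2) + (G (v, 1) - (G (v, 0) + G (v, 2)) / 2) := by
        ring
      rw [e]
      exact (norm_add_le _ _).trans (add_le_add (a2 v) (b2 v))

theorem Edir_two (d φ d' φ' : ℝ) : Edir (2 * d) (2 * φ) (2 * d') (2 * φ') = 4 * Edir d φ d' φ' := by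
  unfold Edir
  ring

theorem errT_two (D : ℕ) (d φ d' φ' : ℕ → ℝ) :
    errT D (fun j => d j + d j) (fun j => φ j + φ j) (fun j => d' j + d' j) (fun j => φ' j + φ' j)
      = 4 * errT D d φ d' φ' := by
  induction D with
  | zero => simp [errT]
  | succ D ih =>
    simp only [errT]
    rw [ih, ← two_mul, ← two_mul, ← two_mul, ← two_mul, Edir_two]
    ring

/-- ERROR OF THE TENSOR PRODUCT -/
theorem cov_leT {D : ℕ} {t : ℕ → ℝ} (h0 : ∀ j < D, 0 ≤ t j) (h1 : ∀ j < D, t j ≤ 1)
    {F G : Vt D → ℂ} {d φ d' φ' : ℕ → ℝ} (hF : DB D F d φ) (hG : DB D G d' φ') :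
    ‖avg (wtT D t) (mulT D F G) - avg (wtT D t) F * avg (wtT D t) G‖ ≤ errT D d φ d' φ' := by
  induction D generalizing d φ d' φ' with
  | zero =>
    have e : ∀ f : Vt 0 → ℂ, avg (wtT 0 t) f = f () := by
      intro f
      show ∑ v : Unit, (((1 : ℝ) : ℂ)) * f v = f ()
      simp only [Complex.ofReal_one, one_mul]
      exact Finset.sum_singleton _ _
    rw [e, e, e]
    show ‖F () * G () - F () * G ()‖ ≤ 0
    rw [sub_self, norm_zero]
  | succ D ih =>
    have ih' := fun {F G : Vt D → ℂ} {d φ d' φ' : ℕ → ℝ} (hF : DB D F d φ) (hG : DB D G d' φ') =>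
      ih (fun j hj => h0 j (by omega)) (fun j hj => h1 j (by omega)) hF hG
    obtain ⟨a1, a2, a3⟩ := hF
    obtain ⟨b1, b2, b3⟩ := hG
    have t0 := h0 D (by omega)
    have t1 := h1 D (by omega)
    have hw : Wts (wtT D t) := Wts.T (fun j hj => h0 j (by omega)) (fun j hj => h1 j (by omega))
    have hb := Wts.bt t0 t1
    set f : Fin 3 → ℂ := fun i => avg (wtT D t) (fun v => F (v, i)) with hf
    set g : Fin 3 → ℂ := fun i => avg (wtT D t) (fun v => G (v, i)) with hg
    set ε := errT D d φ d' φ' with hε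
    -- one direction
    have e1 := bt_err t0 t1 f g (df := d D) (dg := d' D) (φf := φ D) (φg := φ' D)
      (by simp only [hf]; rw [← avg_sub]; exact norm_avg_le hw a1)
      (by simp only [hg]; rw [← avg_sub]; exact norm_avg_le hw b1)
      (by
        have : avg (wtT D t) (fun v => F (v, 1)) - (avg (wtT D t) (fun v => F (v, 0))
            + avg (wtT D t) (fun v => F (v, 2))) / 2
            = avg (wtT D t) (fun v => F (v, 1) - (F (v, 0) + F (v, 2)) / 2) := by
          have e2 : (fun v => F (v, 1) - (F (v, 0) + F (v, 2)) / 2)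
              = fun v => F (v, 1) - (1 / 2 : ℂ) * (F (v, 0) + F (v, 2)) := by
            funext v; ring
          rw [e2, avg_sub, avg_smul, avg_add]
          ring
        simp only [hf]
        rw [this]
        exact norm_avg_le hw a2)
      (by
        have : avg (wtT D t) (fun v => G (v, 1)) - (avg (wtT D t) (fun v => G (v, 0))
            + avg (wtT D t) (fun v => G (v, 2))) / 2
            = avg (wtT D t) (fun v => G (v, 1) - (G (v, 0) + G (v, 2)) / 2) := by
          have e2 : (fun v => G (v, 1) - (G (v, 0) + G (v, 2)) / 2)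
              = fun v => G (v, 1) - (1 / 2 : ℂ) * (G (v, 0) + G (v, 2)) := by
            funext v; ring
          rw [e2, avg_sub, avg_smul, avg_add]
          ring
        simp only [hg]
        rw [this]
        exact norm_avg_le hw b2)
    -- the inner products
    set M : Fin 3 → ℂ := fun i => avg (wtT D t) (mulT D (fun u => F (u, i)) (fun u => G (u, i)))
      with hM
    set Δ : ℂ := avg (wtT D t) (mulT D (fun u => F (u, 2) - F (u, 0)) (fun u => G (u, 2) - G (u, 0)))
      with hΔ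
    have k1 : ∀ i, ‖M i - f i * g i‖ ≤ ε := fun i => ih' (a3 i) (b3 i)
    have k2 : ‖Δ - (f 2 - f 0) * (g 2 - g 0)‖ ≤ 4 * ε := by
      have h := ih' (DB.sub (a3 2) (a3 0)) (DB.sub (b3 2) (b3 0))
      rw [errT_two] at h
      have e2 : avg (wtT D t) (fun v => F (v, 2) - F (v, 0)) = f 2 - f 0 := avg_sub _ _ _
      have e3 : avg (wtT D t) (fun v => G (v, 2) - G (v, 0)) = g 2 - g 0 := avg_sub _ _ _
      rw [e2, e3] at h
      exact h
    have e4 : avg (wtT (D + 1) t) (mulT (D + 1) F G)
        = avg (bt (t D)) (fun i => if i = 1 then M i - Δ / 4 else M i) := by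
      rw [avg_T_succ]
      congr 1
      funext i
      by_cases hi : i = 1
      · subst hi
        rw [if_pos rfl]
        have e5 : (fun v => mulT (D + 1) F G (v, 1)) = fun v => mulT D (fun u => F (u, 1))
            (fun u => G (u, 1)) v - (1 / 4 : ℂ) * mulT D (fun u => F (u, 2) - F (u, 0))
            (fun u => G (u, 2) - G (u, 0)) v := by
          funext v
          simp only [mulT, if_true]
          ring
        rw [e5, avg_sub, avg_smul]
        simp only [hM, hΔ]
        ring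
      · rw [if_neg hi]
        have e5 : (fun v => mulT (D + 1) F G (v, i)) = fun v => mulT D (fun u => F (u, i))
            (fun u => G (u, i)) v := by
          funext v
          simp only [mulT, hi, if_false]
        rw [e5]
    have e6 : avg (wtT (D + 1) t) F = avg (bt (t D)) f := avg_T_succ D t F
    have e7 : avg (wtT (D + 1) t) G = avg (bt (t D)) g := avg_T_succ D t G
    rw [e4, e6, e7]
    have e8 : avg (bt (t D)) (fun i => if i = 1 then M i - Δ / 4 else M i)
        - avg (bt (t D)) f * avg (bt (t D)) g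
        = (avg (bt (t D)) (fun i => if i = 1 then f i * g i - (f 2 - f 0) * (g 2 - g 0) / 4
            else f i * g i) - avg (bt (t D)) f * avg (bt (t D)) g)
          + avg (bt (t D)) (fun i => M i - f i * g i)
          - (bt (t D) 1 : ℂ) * ((Δ - (f 2 - f 0) * (g 2 - g 0)) / 4) := by
      have n0 : ¬ ((0 : Fin 3) = 1) := by decide
      have n2 : ¬ ((2 : Fin 3) = 1) := by decide
      simp only [avg, Fin.sum_univ_three, n0, n2, if_false, if_true]
      ring
    rw [e8]
    have hb1 : bt (t D) 1 ≤ 1 / 2 := by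
      show 2 * t D * (1 - t D) ≤ 1 / 2
      nlinarith [sq_nonneg (t D - 1 / 2)]
    have hb0 : 0 ≤ bt (t D) 1 := hb.nonneg 1
    have hε0 : 0 ≤ ε := (norm_nonneg _).trans (k1 0)
    have h3 : ‖(bt (t D) 1 : ℂ) * ((Δ - (f 2 - f 0) * (g 2 - g 0)) / 4)‖ ≤ ε / 2 := by
      rw [norm_mul, Complex.norm_real, Real.norm_of_nonneg hb0, norm_div]
      have h4 : ‖(4 : ℂ)‖ = 4 := by norm_num
      rw [h4]
      have h5 : ‖Δ - (f 2 - f 0) * (g 2 - g 0)‖ / 4 ≤ ε := by linarith
      calc bt (t D) 1 * (‖Δ - (f 2 - f 0) * (g 2 - g 0)‖ / 4) ≤ 1 / 2 * ε :=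
            mul_le_mul hb1 h5 (by positivity) (by norm_num)
        _ = ε / 2 := by ring
    have h6 : ‖avg (bt (t D)) (fun i => M i - f i * g i)‖ ≤ ε := norm_avg_le hb k1
    refine (norm_sub_le _ _).trans ?_
    have h7 := norm_add_le (avg (bt (t D)) (fun i => if i = 1 then f i * g i
      - (f 2 - f 0) * (g 2 - g 0) / 4 else f i * g i) - avg (bt (t D)) f * avg (bt (t D)) g)
      (avg (bt (t D)) (fun i => M i - f i * g i))
    simp only [errT]
    unfold Edir
    linarith

end Pool.Agent.Helper90.C75
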