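import Pool.Agent.Helper90.C75.Zed

/-!
MP_c75db0, format v1.2: quadratic models. The vertices are `corners × {0, c, 1}`; the weights are
`w_corner · ((1-t)², 2t(1-t), t²)`. The product of two models has the values
`F₀G₀`, `F_c G_c - (F₁-F₀)(G₁-G₀)/4`, `F₁G₁`.
-/

set_option autoImplicit false

namespace Pool.Agent.Helper90.C75

open Finset

section gen

variable {V : Type*} [Fintype V]

/-- product of models, abstract product values `P` with error `ε` -/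
theorem Mod.mulE {w : V → ℝ} (hw : Wts w) {f g : ℂ} {F G P : V → ℂ} {r s BF BG ε : ℝ}
    (hf : Mod w f F r) (hg : Mod w g G s) (hBF : ∀ v, ‖F v‖ ≤ BF) (hBG : ∀ v, ‖G v‖ ≤ BG)
    (hP : ‖avg w P - avg w F * avg w G‖ ≤ ε) :
    Mod w (f * g) P (r * BG + s * BF + r * s + ε) := by
  unfold Mod at *
  have hr : 0 ≤ r := (norm_nonneg _).trans hf
  have hF' := norm_avg_le hw hBF
  have hG' := norm_avg_le hw hBG
  have e : f * g - avg w P
      = (f - avg w F) * avg w G + (g - avg w G) * avg w F + (f - avg w F) * (g - avg w G)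
        - (avg w P - avg w F * avg w G) := by ring
  rw [e]
  refine (norm_sub_le _ _).trans (add_le_add ((norm_add_le _ _).trans (add_le_add
    ((norm_add_le _ _).trans (add_le_add ?_ ?_)) ?_)) hP)
  · rw [norm_mul]; exact mul_le_mul hf hG' (norm_nonneg _) hr
  · rw [norm_mul]; exact mul_le_mul hg hF' (norm_nonneg _) ((norm_nonneg _).trans hg)
  · rw [norm_mul]; exact mul_le_mul hf hg (norm_nonneg _) hr

/-- reciprocal, abstract product values `P` of `F` and `G` with error `ε`, close to `1` -/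
theorem Mod.invE {w : V → ℝ} (hw : Wts w) {f : ℂ} {F G P : V → ℂ} {r δ BG ε m : ℝ}
    (hf : Mod w f F r) (hP : ‖avg w P - avg w F * avg w G‖ ≤ ε) (hδ : ∀ v, ‖P v - 1‖ ≤ δ)
    (hBG : ∀ v, ‖G v‖ ≤ BG) (hm : 0 < m) (hfm : m ≤ ‖f‖) :
    Mod w f⁻¹ G ((δ + ε + r * BG) / m) := by
  unfold Mod at *
  have hf0 : f ≠ 0 := by
    rintro rfl
    rw [norm_zero] at hfm
    linarith
  have hd : ‖avg w P - 1‖ ≤ δ := by
    have : avg w P - 1 = avg w (fun v => P v - 1) := by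
      rw [avg_sub w P (fun _ => 1), avg_const hw]
    rw [this]
    exact norm_avg_le hw hδ
  have hG' : ‖avg w G‖ ≤ BG := norm_avg_le hw hBG
  have e : f⁻¹ - avg w G = -(f⁻¹ * ((avg w P - 1)
      - (avg w P - avg w F * avg w G) + (f - avg w F) * avg w G)) := by
    field_simp
    ring
  rw [e, norm_neg, norm_mul, norm_inv, ← div_eq_inv_mul]
  have hnum : ‖(avg w P - 1) - (avg w P - avg w F * avg w G) + (f - avg w F) * avg w G‖
      ≤ δ + ε + r * BG := by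
    refine (norm_add_le _ _).trans (add_le_add ((norm_sub_le _ _).trans (add_le_add hd hP)) ?_)
    rw [norm_mul]
    exact mul_le_mul hf hG' (norm_nonneg _) ((norm_nonneg _).trans hf)
  exact div_le_div₀ ((norm_nonneg _).trans hnum) hnum hm hfm

theorem avg_im (w : V → ℝ) (f : V → ℂ) : (avg w f).im = ∑ v, w v * (f v).im := by
  unfold avg
  rw [Complex.im_sum]
  exact Finset.sum_congr rfl fun v _ => by rw [Complex.im_ofReal_mul]

theorem avg_re (w : V → ℝ) (f : V → ℂ) : (avg w f).re = ∑ v, w v * (f v).re := by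
  unfold avg
  rw [Complex.re_sum]
  exact Finset.sum_congr rfl fun v _ => by rw [Complex.re_ofReal_mul]

/-- model of `1/z`, abstract product values `P` of `u` and `x - u` with error `ε` -/
theorem Mod.zuE {w : V → ℝ} (hw : Wts w) {z x : ℂ} (hz : z ≠ 0) (hx : z + z⁻¹ = x)
    (hi : (z⁻¹).im ≤ 0) {xv uv P : V → ℂ} {rx m δ Bu ε : ℝ} (hxm : Mod w x xv rx)
    (hm : 0 < m) (hui : ∀ v, m ≤ (xv v).im - (uv v).im - rx)
    (hP : ‖avg w P - avg w uv * avg w (fun v => xv v - uv v)‖ ≤ ε)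
    (hres : ∀ v, ‖P v - 1‖ ≤ δ) (hBu : ∀ v, ‖uv v‖ ≤ Bu) :
    Mod w z⁻¹ uv ((δ + ε + Bu * rx) / m) := by
  unfold Mod at *
  set η := avg w uv with hη
  have himv : m ≤ x.im - η.im := by
    have h1 : m + rx ≤ (avg w xv).im - η.im := by
      rw [hη, avg_im, avg_im, ← Finset.sum_sub_distrib]
      calc m + rx = ∑ v, w v * (m + rx) := by rw [← Finset.sum_mul, hw.sum, one_mul]
        _ ≤ ∑ v, (w v * (xv v).im - w v * (uv v).im) := Finset.sum_le_sum fun v _ => by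
          have := mul_le_mul_of_nonneg_left (hui v) (hw.nonneg v)
          nlinarith [hw.nonneg v]
    have h2 := Complex.abs_im_le_norm (x - avg w xv)
    rw [Complex.sub_im] at h2
    have h3 := neg_le_abs (x.im - (avg w xv).im)
    linarith
  have h2 := u_near hz hx hi hm himv
  refine h2.trans ?_
  apply div_le_div_of_nonneg_right _ hm.le
  have hd : ‖avg w P - 1‖ ≤ δ := by
    have : avg w P - 1 = avg w (fun v => P v - 1) := by
      rw [avg_sub w P (fun _ => 1), avg_const hw]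
    rw [this]
    exact norm_avg_le hw hres
  have e3 : avg w (fun v => xv v - uv v) = avg w xv - η := avg_sub w xv uv
  have e2 : η ^ 2 - x * η + 1 = (avg w P - η * avg w (fun v => xv v - uv v)) - (avg w P - 1)
      - η * (x - avg w xv) := by
    rw [e3]; ring
  rw [e2]
  have hηB : ‖η‖ ≤ Bu := norm_avg_le hw hBu
  refine (norm_sub_le _ _).trans (add_le_add ((norm_sub_le _ _).trans ?_) ?_)
  · rw [add_comm δ ε]
    exact add_le_add hP hd
  rw [norm_mul]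
  exact mul_le_mul hηB hxm (norm_nonneg _) ((norm_nonneg _).trans hηB)

end gen

/-! ### quadratic models -/

/-- Bernstein weights of degree two -/
noncomputable def bt (t : ℝ) : Fin 3 → ℝ := ![(1 - t) ^ 2, 2 * t * (1 - t), t ^ 2]

theorem Wts.bt {t : ℝ} (h0 : 0 ≤ t) (h1 : t ≤ 1) : Wts (bt t) := by
  constructor
  · intro i
    fin_cases i
    · exact sq_nonneg _
    · exact mul_nonneg (mul_nonneg two_pos.le h0) (by linarith)
    · exact sq_nonneg _
  · simp [C75.bt, Fin.sum_univ_three]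
    ring

theorem avg_bt (t : ℝ) (f : Fin 3 → ℂ) :
    avg (bt t) f = (1 - t) * f 0 + t * f 2 + 2 * t * (1 - t) * (f 1 - (f 0 + f 2) / 2) := by
  simp [avg, bt, Fin.sum_univ_three]
  ring

variable {C : Type*} [Fintype C]

/-- weights of the quadratic models -/
noncomputable def wq (wc : C → ℝ) (t : ℝ) : C × Fin 3 → ℝ := fun v => wc v.1 * bt t v.2

theorem Wts.q {wc : C → ℝ} (h : Wts wc) {t : ℝ} (h0 : 0 ≤ t) (h1 : t ≤ 1) : Wts (wq wc t) := by
  have hb := Wts.bt h0 h1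
  constructor
  · intro v
    exact mul_nonneg (h.nonneg _) (hb.nonneg _)
  · rw [Fintype.sum_prod_type]
    simp only [wq]
    rw [← h.sum]
    refine Finset.sum_congr rfl fun c _ => ?_
    rw [← Finset.mul_sum, hb.sum, mul_one]

theorem avg_wq (wc : C → ℝ) (t : ℝ) (F : C × Fin 3 → ℂ) :
    avg (wq wc t) F = avg wc (fun c => avg (bt t) (fun i => F (c, i))) := by
  unfold avg
  rw [Fintype.sum_prod_type]
  refine Finset.sum_congr rfl fun c _ => ?_
  rw [Finset.mul_sum]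
  refine Finset.sum_congr rfl fun i _ => ?_
  simp only [wq]
  push_cast
  ring

/-- product values -/
noncomputable def pq (F G : C × Fin 3 → ℂ) : C × Fin 3 → ℂ := fun v =>
  if v.2 = 1 then F v * G v - (F (v.1, 2) - F (v.1, 0)) * (G (v.1, 2) - G (v.1, 0)) / 4
  else F v * G v

theorem bt_a (t : ℝ) : 2 * t * (1 - t) * |t - 1 / 2| ≤ 1 / 10 := by
  set s := |t - 1 / 2| with hs
  have hs0 : 0 ≤ s := abs_nonneg _
  have hs2 : s ^ 2 = (t - 1 / 2) ^ 2 := sq_abs _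
  have e : 2 * t * (1 - t) = 2 * (1 / 4 - s ^ 2) := by rw [hs2]; ring
  rw [e]
  nlinarith [mul_nonneg (sq_nonneg (s - 29 / 100)) (by linarith : (0:ℝ) ≤ s + 58 / 100)]

/-- ERROR OF THE QUADRATIC PRODUCT, one corner -/
theorem bt_err {t : ℝ} (h0 : 0 ≤ t) (h1 : t ≤ 1) (f g : Fin 3 → ℂ) {df dg φf φg : ℝ}
    (hdf : ‖f 2 - f 0‖ ≤ df) (hdg : ‖g 2 - g 0‖ ≤ dg)
    (hφf : ‖f 1 - (f 0 + f 2) / 2‖ ≤ φf) (hφg : ‖g 1 - (g 0 + g 2) / 2‖ ≤ φg) :
    ‖avg (bt t) (fun i => if i = 1 then f i * g i - (f 2 - f 0) * (g 2 - g 0) / 4 else f i * g i)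
      - avg (bt t) f * avg (bt t) g‖ ≤ (df * φg + φf * dg) / 10 + φf * φg / 4 := by
  rw [avg_bt, avg_bt, avg_bt]
  set a := f 1 - (f 0 + f 2) / 2 with ha
  set b := g 1 - (g 0 + g 2) / 2 with hb
  have hf1 : f 1 = a + (f 0 + f 2) / 2 := by rw [ha]; ring
  have hg1 : g 1 = b + (g 0 + g 2) / 2 := by rw [hb]; ring
  have e : ((1 - t : ℂ) * (if (0 : Fin 3) = 1 then f 0 * g 0 - (f 2 - f 0) * (g 2 - g 0) / 4
        else f 0 * g 0)
      + t * (if (2 : Fin 3) = 1 then f 2 * g 2 - (f 2 - f 0) * (g 2 - g 0) / 4 else f 2 * g 2)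
      + 2 * t * (1 - t) * ((if (1 : Fin 3) = 1 then f 1 * g 1 - (f 2 - f 0) * (g 2 - g 0) / 4
          else f 1 * g 1)
        - ((if (0 : Fin 3) = 1 then f 0 * g 0 - (f 2 - f 0) * (g 2 - g 0) / 4 else f 0 * g 0)
          + (if (2 : Fin 3) = 1 then f 2 * g 2 - (f 2 - f 0) * (g 2 - g 0) / 4 else f 2 * g 2)) / 2))
      - ((1 - t) * f 0 + t * f 2 + 2 * t * (1 - t) * a)
        * ((1 - t) * g 0 + t * g 2 + 2 * t * (1 - t) * b)
      = ((-(2 * t * (1 - t) * (t - 1 / 2)) : ℝ) : ℂ) * ((f 2 - f 0) * b)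
        + ((-(2 * t * (1 - t) * (t - 1 / 2)) : ℝ) : ℂ) * (a * (g 2 - g 0))
        + ((2 * t * (1 - t) - (2 * t * (1 - t)) ^ 2 : ℝ) : ℂ) * (a * b) := by
    rw [if_neg (by decide), if_neg (by decide), if_pos rfl, hf1, hg1]
    push_cast
    ring
  rw [e]
  have hb1 := bt_a t
  have hq0 : 0 ≤ 2 * t * (1 - t) := mul_nonneg (mul_nonneg two_pos.le h0) (by linarith)
  have hc1 : |(-(2 * t * (1 - t) * (t - 1 / 2)))| ≤ 1 / 10 := by
    rw [abs_neg, abs_mul, abs_of_nonneg hq0]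
    exact hb1
  have hq1 : 2 * t * (1 - t) ≤ 1 / 2 := by nlinarith [sq_nonneg (t - 1 / 2)]
  have hc2 : |2 * t * (1 - t) - (2 * t * (1 - t)) ^ 2| ≤ 1 / 4 := by
    rw [abs_of_nonneg (by nlinarith)]
    nlinarith [sq_nonneg (2 * t * (1 - t) - 1 / 2)]
  have hdf0 : 0 ≤ df := (norm_nonneg _).trans hdf
  have hφf0 : 0 ≤ φf := (norm_nonneg _).trans hφf
  have n1 : ‖((-(2 * t * (1 - t) * (t - 1 / 2)) : ℝ) : ℂ) * ((f 2 - f 0) * b)‖
      ≤ 1 / 10 * (df * φg) := by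
    rw [norm_mul, Complex.norm_real, norm_mul, Real.norm_eq_abs]
    exact mul_le_mul hc1 (mul_le_mul hdf hφg (norm_nonneg _) hdf0)
      (mul_nonneg (norm_nonneg _) (norm_nonneg _)) (by norm_num)
  have n2 : ‖((-(2 * t * (1 - t) * (t - 1 / 2)) : ℝ) : ℂ) * (a * (g 2 - g 0))‖
      ≤ 1 / 10 * (φf * dg) := by
    rw [norm_mul, Complex.norm_real, norm_mul, Real.norm_eq_abs]
    exact mul_le_mul hc1 (mul_le_mul hφf hdg (norm_nonneg _) hφf0)
      (mul_nonneg (norm_nonneg _) (norm_nonneg _)) (by norm_num)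
  have n3 : ‖((2 * t * (1 - t) - (2 * t * (1 - t)) ^ 2 : ℝ) : ℂ) * (a * b)‖
      ≤ 1 / 4 * (φf * φg) := by
    rw [norm_mul, Complex.norm_real, norm_mul, Real.norm_eq_abs]
    exact mul_le_mul hc2 (mul_le_mul hφf hφg (norm_nonneg _) hφf0)
      (mul_nonneg (norm_nonneg _) (norm_nonneg _)) (by norm_num)
  refine (norm_add_le _ _).trans ((add_le_add ((norm_add_le _ _).trans (add_le_add n1 n2)) n3).trans
    (le_of_eq ?_))
  ring

/-- ERROR OF THE QUADRATIC PRODUCT -/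
theorem cov_leQ {wc : C → ℝ} (hw : Wts wc) {t : ℝ} (h0 : 0 ≤ t) (h1 : t ≤ 1)
    {F G : C × Fin 3 → ℂ} {cF cG : Fin 3 → ℂ} {kF kG dF dG φF φG : ℝ}
    (hF : ∀ v, ‖F v - cF v.2‖ ≤ kF) (hG : ∀ v, ‖G v - cG v.2‖ ≤ kG)
    (hdF : ∀ c, ‖F (c, 2) - F (c, 0)‖ ≤ dF) (hdG : ∀ c, ‖G (c, 2) - G (c, 0)‖ ≤ dG)
    (hφF : ∀ c, ‖F (c, 1) - (F (c, 0) + F (c, 2)) / 2‖ ≤ φF)
    (hφG : ∀ c, ‖G (c, 1) - (G (c, 0) + G (c, 2)) / 2‖ ≤ φG) :
    ‖avg (wq wc t) (pq F G) - avg (wq wc t) F * avg (wq wc t) G‖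
      ≤ kF * kG + (dF * φG + φF * dG) / 10 + φF * φG / 4 := by
  have hb := Wts.bt h0 h1
  rw [avg_wq, avg_wq, avg_wq]
  set f : C → ℂ := fun c => avg (bt t) (fun i => F (c, i)) with hf
  set g : C → ℂ := fun c => avg (bt t) (fun i => G (c, i)) with hg
  have c1 : ‖avg wc (fun c => f c * g c) - avg wc f * avg wc g‖ ≤ kF * kG := by
    refine cov_le hw (cF := avg (bt t) cF) (cG := avg (bt t) cG) (fun c => ?_) (fun c => ?_)
    · simp only [hf]
      rw [← avg_sub]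
      exact norm_avg_le hb fun i => hF (c, i)
    · simp only [hg]
      rw [← avg_sub]
      exact norm_avg_le hb fun i => hG (c, i)
  have c2 : ‖avg wc (fun c => avg (bt t) (fun i => pq F G (c, i))) - avg wc (fun c => f c * g c)‖
      ≤ (dF * φG + φF * dG) / 10 + φF * φG / 4 := by
    rw [← avg_sub]
    exact norm_avg_le hw fun c => bt_err h0 h1 (fun i => F (c, i)) (fun i => G (c, i)) (hdF c)
      (hdG c) (hφF c) (hφG c)
  calc _ = ‖(avg wc (fun c => avg (bt t) (fun i => pq F G (c, i))) - avg wc (fun c => f c * g c))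
        + (avg wc (fun c => f c * g c) - avg wc f * avg wc g)‖ := by congr 1; ring
    _ ≤ ((dF * φG + φF * dG) / 10 + φF * φG / 4) + kF * kG :=
        (norm_add_le _ _).trans (add_le_add c2 c1)
    _ = _ := by ring

/-- exactness: a factor which is affine and does not depend on the corner, times an affine one -/
theorem avg_pq_affine {wc : C → ℝ} {t : ℝ} (l0 l2 : ℂ) {G : C × Fin 3 → ℂ}
    (hG : ∀ c, G (c, 1) = (G (c, 0) + G (c, 2)) / 2) :
    avg (wq wc t) (fun v => ![l0 * G (v.1, 0), (l0 * G (v.1, 2) + l2 * G (v.1, 0)) / 2,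
      l2 * G (v.1, 2)] v.2)
      = ((1 - t) * l0 + t * l2) * avg (wq wc t) G := by
  rw [avg_wq, avg_wq, ← avg_smul]
  congr 1
  funext c
  rw [avg_bt, avg_bt]
  simp only [Matrix.cons_val_zero, Matrix.cons_val_one, Matrix.cons_val]
  rw [hG c]
  ring

/-- PRODUCT OF QUADRATIC MODELS -/
theorem Mod.mulQ {wc : C → ℝ} (hw : Wts wc) {t : ℝ} (h0 : 0 ≤ t) (h1 : t ≤ 1) {f g : ℂ}
    {F G : C × Fin 3 → ℂ} {r s BF BG kF kG dF dG φF φG : ℝ} {cF cG : Fin 3 → ℂ}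
    (hf : Mod (wq wc t) f F r) (hg : Mod (wq wc t) g G s)
    (hBF : ∀ v, ‖F v‖ ≤ BF) (hBG : ∀ v, ‖G v‖ ≤ BG)
    (hF : ∀ v, ‖F v - cF v.2‖ ≤ kF) (hG : ∀ v, ‖G v - cG v.2‖ ≤ kG)
    (hdF : ∀ c, ‖F (c, 2) - F (c, 0)‖ ≤ dF) (hdG : ∀ c, ‖G (c, 2) - G (c, 0)‖ ≤ dG)
    (hφF : ∀ c, ‖F (c, 1) - (F (c, 0) + F (c, 2)) / 2‖ ≤ φF)
    (hφG : ∀ c, ‖G (c, 1) - (G (c, 0) + G (c, 2)) / 2‖ ≤ φG) :
    Mod (wq wc t) (f * g) (pq F G)
      (r * BG + s * BF + r * s + (kF * kG + (dF * φG + φF * dG) / 10 + φF * φG / 4)) :=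
  hf.mulE (hw.q h0 h1) hg hBF hBG (cov_leQ hw h0 h1 hF hG hdF hdG hφF hφG)

end Pool.Agent.Helper90.C75
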