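import Pool.Agent.Helper90.C75.Mdl

/-!
MP_c75db0, format (F3): models of `z` (`z + 1/z = x`) and of reciprocals.
-/

set_option autoImplicit false

namespace Pool.Agent.Helper90.C75

open Finset

/-- the root in the upper half plane is close to an approximate root in the upper half plane -/
theorem z_near {z x ζ : ℂ} (hz : z ≠ 0) (hx : z + z⁻¹ = x) (hi : 0 ≤ z.im) {m : ℝ}
    (hm : 0 < m) (hζ : m ≤ ζ.im) : ‖z - ζ‖ ≤ ‖ζ ^ 2 - x * ζ + 1‖ / m := by
  have h1 : ζ ^ 2 - x * ζ + 1 = (ζ - z) * (ζ - z⁻¹) := by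
    rw [← hx]; field_simp; ring
  have h2 : (z⁻¹).im ≤ 0 := by
    rw [Complex.inv_im]
    have : 0 ≤ Complex.normSq z := Complex.normSq_nonneg z
    rw [neg_div]
    have := div_nonneg hi this
    linarith
  have h3 : m ≤ ‖ζ - z⁻¹‖ := by
    have h4 := Complex.abs_im_le_norm (ζ - z⁻¹)
    rw [Complex.sub_im] at h4
    have h5 := le_abs_self (ζ.im - (z⁻¹).im)
    linarith
  rw [le_div_iff₀ hm, h1, norm_mul, norm_sub_rev z ζ]
  exact mul_le_mul_of_nonneg_left h3 (norm_nonneg _)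

variable {V : Type*} [Fintype V]

/-- model of `z`: vertices `zv`, `xv`, residuals `δ` at the vertices -/
theorem Mod.z {w : V → ℝ} (hw : Wts w) {z x : ℂ} (hz : z ≠ 0) (hx : z + z⁻¹ = x)
    (hi : 0 ≤ z.im) {xv zv : V → ℂ} {rx m δ Bz ρz ρx : ℝ} {cz cx : ℂ} (hxm : Mod w x xv rx)
    (hm : 0 < m) (hzi : ∀ v, m ≤ (zv v).im) (hres : ∀ v, ‖zv v ^ 2 - xv v * zv v + 1‖ ≤ δ)
    (hBz : ∀ v, ‖zv v‖ ≤ Bz) (hρz : ∀ v, ‖zv v - cz‖ ≤ ρz) (hρx : ∀ v, ‖xv v - cx‖ ≤ ρx) :
    Mod w z zv ((δ + ρz * ρz + ρx * ρz + rx * Bz) / m) := by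
  unfold Mod at *
  have himv : m ≤ (avg w zv).im := by
    have h1 : (avg w zv).im = ∑ v, w v * (zv v).im := by
      unfold avg
      rw [Complex.im_sum]
      exact Finset.sum_congr rfl fun v _ => by rw [Complex.im_ofReal_mul]
    rw [h1]
    calc m = ∑ v, w v * m := by rw [← Finset.sum_mul, hw.sum, one_mul]
      _ ≤ ∑ v, w v * (zv v).im :=
        Finset.sum_le_sum fun v _ => mul_le_mul_of_nonneg_left (hzi v) (hw.nonneg v)
  have h2 := z_near hz hx hi hm himv
  refine h2.trans ?_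
  apply div_le_div_of_nonneg_right _ hm.le
  set ζ := avg w zv with hζ
  have c1 := cov_le hw hρz hρz
  have c2 := cov_le hw hρx hρz
  rw [← hζ] at c1 c2
  have hres' : ‖avg w (fun v => zv v ^ 2 - xv v * zv v + 1)‖ ≤ δ := norm_avg_le hw hres
  have e1 : avg w (fun v => zv v ^ 2 - xv v * zv v + 1)
      = avg w (fun v => zv v * zv v) - avg w (fun v => xv v * zv v) + 1 := by
    have : (fun v => zv v ^ 2 - xv v * zv v + 1) = fun v => (zv v * zv v - xv v * zv v) + 1 := by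
      funext v; ring
    rw [this, avg_add, avg_sub, avg_const hw]
  have e2 : ζ ^ 2 - x * ζ + 1 = avg w (fun v => zv v ^ 2 - xv v * zv v + 1)
      - (avg w (fun v => zv v * zv v) - ζ * ζ) + (avg w (fun v => xv v * zv v) - avg w xv * ζ)
      - (x - avg w xv) * ζ := by
    rw [e1]; ring
  rw [e2]
  have hζB : ‖ζ‖ ≤ Bz := norm_avg_le hw hBz
  refine (norm_sub_le _ _).trans (add_le_add ((norm_add_le _ _).trans (add_le_add
    ((norm_sub_le _ _).trans (add_le_add hres' c1)) c2)) ?_)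
  rw [norm_mul]
  exact mul_le_mul hxm hζB (norm_nonneg _) ((norm_nonneg _).trans hxm)

/-- the small root near an approximate one: `u = 1/z`, `v` approximate -/
theorem u_near {z x v : ℂ} (hz : z ≠ 0) (hx : z + z⁻¹ = x) (hu : (z⁻¹).im ≤ 0) {m : ℝ}
    (hm : 0 < m) (hv : m ≤ x.im - v.im) : ‖z⁻¹ - v‖ ≤ ‖v ^ 2 - x * v + 1‖ / m := by
  have h1 : v ^ 2 - x * v + 1 = (v - z⁻¹) * (v - z) := by
    rw [← hx]; field_simp; ring
  have h2 : z.im = x.im - (z⁻¹).im := by rw [← hx, Complex.add_im]; ring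
  have h3 : m ≤ ‖v - z‖ := by
    have h4 := Complex.abs_im_le_norm (v - z)
    rw [Complex.sub_im] at h4
    have h5 := neg_le_abs (v.im - z.im)
    linarith
  rw [le_div_iff₀ hm, h1, norm_mul, norm_sub_rev (z⁻¹) v]
  exact mul_le_mul_of_nonneg_left h3 (norm_nonneg _)

/-- model of `1/z`: vertices `uv`, residuals `δ` of `1 - u (x - u)` -/
theorem Mod.zu {w : V → ℝ} (hw : Wts w) {z x : ℂ} (hz : z ≠ 0) (hx : z + z⁻¹ = x)
    (hi : (z⁻¹).im ≤ 0) {xv uv : V → ℂ} {rx m δ Bu ρu ρz : ℝ} {cu cz : ℂ} (hxm : Mod w x xv rx)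
    (hm : 0 < m) (hui : ∀ v, m ≤ (xv v).im - (uv v).im - rx)
    (hres : ∀ v, ‖1 - uv v * (xv v - uv v)‖ ≤ δ)
    (hBu : ∀ v, ‖uv v‖ ≤ Bu) (hρu : ∀ v, ‖uv v - cu‖ ≤ ρu)
    (hρz : ∀ v, ‖(xv v - uv v) - cz‖ ≤ ρz) :
    Mod w z⁻¹ uv ((δ + ρu * ρz + Bu * rx) / m) := by
  unfold Mod at *
  set η := avg w uv with hη
  have hav : ∀ f : V → ℂ, (avg w f).im = ∑ v, w v * (f v).im := by
    intro f
    unfold avg
    rw [Complex.im_sum]
    exact Finset.sum_congr rfl fun v _ => by rw [Complex.im_ofReal_mul]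
  have himv : m ≤ x.im - η.im := by
    have h1 : m + rx ≤ (avg w xv).im - η.im := by
      rw [hη, hav, hav, ← Finset.sum_sub_distrib]
      calc m + rx = ∑ v, w v * (m + rx) := by rw [← Finset.sum_mul, hw.sum, one_mul]
        _ ≤ ∑ v, (w v * (xv v).im - w v * (uv v).im) := Finset.sum_le_sum fun v _ => by
          have := mul_le_mul_of_nonneg_left (hui v) (hw.nonneg v)
          nlinarith [hw.nonneg v]
    have h2 := Complex.abs_im_le_norm (x - avg w xv)
    rw [Complex.sub_im] at h2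
    have h3 := neg_le_abs (x.im - (avg w xv).im)
    linarith
  have h2 := u_near hz hx hi hm himv
  refine h2.trans ?_
  apply div_le_div_of_nonneg_right _ hm.le
  have c1 := cov_le hw hρu hρz
  have e1 : avg w (fun v => 1 - uv v * (xv v - uv v))
      = 1 - avg w (fun v => uv v * (xv v - uv v)) := by
    rw [avg_sub w (fun _ => 1) (fun v => uv v * (xv v - uv v)), avg_const hw]
  have e3 : avg w (fun v => xv v - uv v) = avg w xv - η := avg_sub w xv uv
  have e2 : η ^ 2 - x * η + 1 = avg w (fun v => 1 - uv v * (xv v - uv v))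
      + (avg w (fun v => uv v * (xv v - uv v)) - η * avg w (fun v => xv v - uv v))
      - η * (x - avg w xv) := by
    rw [e1, e3]; ring
  rw [e2]
  have hηB : ‖η‖ ≤ Bu := norm_avg_le hw hBu
  refine (norm_sub_le _ _).trans (add_le_add ((norm_add_le _ _).trans (add_le_add
    (norm_avg_le hw hres) c1)) ?_)
  rw [norm_mul]
  exact mul_le_mul hηB hxm (norm_nonneg _) ((norm_nonneg _).trans hηB)

/-- model of a reciprocal: candidate vertex values `G` -/
theorem Mod.inv {w : V → ℝ} (hw : Wts w) {f : ℂ} {F G : V → ℂ} {r δ BG ρF ρG m : ℝ} {cF cG : ℂ}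
    (hf : Mod w f F r) (hδ : ∀ v, ‖F v * G v - 1‖ ≤ δ) (hBG : ∀ v, ‖G v‖ ≤ BG)
    (hF : ∀ v, ‖F v - cF‖ ≤ ρF) (hG : ∀ v, ‖G v - cG‖ ≤ ρG) (hm : 0 < m) (hfm : m ≤ ‖f‖) :
    Mod w f⁻¹ G ((δ + ρF * ρG + r * BG) / m) := by
  unfold Mod at *
  have hf0 : f ≠ 0 := by
    rintro rfl
    rw [norm_zero] at hfm
    linarith
  have hc := cov_le hw hF hG
  have hd : ‖avg w (fun v => F v * G v) - 1‖ ≤ δ := by
    have : avg w (fun v => F v * G v) - 1 = avg w (fun v => F v * G v - 1) := by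
      rw [avg_sub w (fun v => F v * G v) (fun _ => 1), avg_const hw]
    rw [this]
    exact norm_avg_le hw hδ
  have hG' : ‖avg w G‖ ≤ BG := norm_avg_le hw hBG
  have e : f⁻¹ - avg w G = -(f⁻¹ * ((avg w (fun v => F v * G v) - 1)
      - (avg w (fun v => F v * G v) - avg w F * avg w G) + (f - avg w F) * avg w G)) := by
    field_simp
    ring
  rw [e, norm_neg, norm_mul, norm_inv, ← div_eq_inv_mul]
  have hnum : ‖(avg w (fun v => F v * G v) - 1)
      - (avg w (fun v => F v * G v) - avg w F * avg w G) + (f - avg w F) * avg w G‖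
      ≤ δ + ρF * ρG + r * BG := by
    refine (norm_add_le _ _).trans (add_le_add ((norm_sub_le _ _).trans (add_le_add hd hc)) ?_)
    rw [norm_mul]
    exact mul_le_mul hf hG' (norm_nonneg _) ((norm_nonneg _).trans hf)
  exact div_le_div₀ ((norm_nonneg _).trans hnum) hnum hm hfm

/-- lower bound of a modelled function: all vertex values lie in a half plane -/
theorem Mod.lower {w : V → ℝ} (hw : Wts w) {f u : ℂ} {F : V → ℂ} {r m : ℝ} (hf : Mod w f F r)
    (hu : ‖u‖ ≤ 1) (h : ∀ v, m ≤ (F v * Star.star u).re) : m - r ≤ ‖f‖ := by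
  unfold Mod at hf
  have h1 : m ≤ (avg w F * Star.star u).re := by
    have e : (avg w F * Star.star u).re = ∑ v, w v * (F v * Star.star u).re := by
      unfold avg
      rw [Finset.sum_mul, Complex.re_sum]
      refine Finset.sum_congr rfl fun v _ => ?_
      rw [mul_assoc, Complex.re_ofReal_mul]
    rw [e]
    calc m = ∑ v, w v * m := by rw [← Finset.sum_mul, hw.sum, one_mul]
      _ ≤ _ := Finset.sum_le_sum fun v _ => mul_le_mul_of_nonneg_left (h v) (hw.nonneg v)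
  have h2 : (avg w F * Star.star u).re ≤ ‖avg w F‖ := by
    refine (Complex.re_le_norm _).trans ?_
    rw [norm_mul, norm_star]
    calc ‖avg w F‖ * ‖u‖ ≤ ‖avg w F‖ * 1 := mul_le_mul_of_nonneg_left hu (norm_nonneg _)
      _ = ‖avg w F‖ := mul_one _
  have h3 : ‖avg w F‖ - ‖f‖ ≤ ‖avg w F - f‖ := norm_sub_norm_le _ _
  rw [norm_sub_rev] at h3
  linarith

end Pool.Agent.Helper90.C75
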