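import Pool.Agent.Helper90.C75.PMod
import Pool.Agent.Helper90.C75.Zed
import Pool.Agent.Helper6.CX.LNI

/-!
MP_c75db0: cell soundness. From the inequalities at the vertices of a cell to the inequalities at
every point of the cell, for the run matrices `RMb` of helper6.
-/

set_option autoImplicit false

namespace Pool.Agent.Helper90.C75

open Finset Pool.Agent.Helper6.MONO

variable {V : Type*} [Fintype V]

/-- the interpolated form -/
noncomputable def avgF (w : V → ℝ) (K : V → M3) : M3 := fun i j => avg w (fun v => K v i j)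

theorem qf_avgF (w : V → ℝ) (K : V → M3) (x : Fin 3 → ℂ) :
    qf (avgF w K) x = ∑ v, w v * qf (K v) x := qf_avg w K x

/-- the entry `e` of the change of star -/
noncomputable def ceE (od : Bool) (k : ℝ) (om : ℂ) : ℂ :=
  if od then 0 else (k : ℂ) * om / 2 - (k : ℂ) ^ 2 / (4 * (2 + (k : ℂ)))

/-- the entry `c₂` of the change of star -/
noncomputable def ceC (od : Bool) (k : ℝ) (om om' : ℂ) : ℂ :=
  if od then om * om' else om' * ((k : ℂ) / 2) * (1 / 2 - om)

theorem Cm_mulVec (od : Bool) (k : ℝ) (om om' : ℂ) (v : Fin 3 → ℂ) :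
    (Cm od k om om').mulVec v = Cv (ceE od k om) om' (ceC od k om om') v := by
  ext i
  cases od <;> fin_cases i <;>
    simp [Cm, Cv, ceE, ceC, Matrix.mulVec, dotProduct, Fin.sum_univ_three]

/-- a block: source and target forms at the vertices, change of star, real matrix -/
theorem RMb_mulVec (p q r : ℕ) (s : Pool.Agent.Helper21.SUP.GS) (m : ℕ) (w : ℂ) (v : Fin 3 → ℂ) :
    (RMb p q r s m w).mulVec v =
      Cv (ceE (decide (m % 2 = 1)) (kk p q r s.1 s.2.1) (omS p q r s w))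
        (omS p q r (Pool.Agent.Helper21.SUP.nx s m) w)
        (ceC (decide (m % 2 = 1)) (kk p q r s.1 s.2.1) (omS p q r s w)
          (omS p q r (Pool.Agent.Helper21.SUP.nx s m) w))
        ((Bm (kk p q r s.1 s.2.1) (Rb (mm p q r s.1 s.2.1) (m - 1))).mulVec v) := by
  rw [RMb, ← Matrix.mulVec_mulVec, Cm_mulVec]

/-- models of the six entries of a form at the vertices -/
structure KMod (w : V → ℝ) (K : V → M3) where
  k00 : MR V
  k01 : MR V
  k02 : MR V
  k11 : MR V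
  k12 : MR V
  k22 : MR V
  h00 : MR.ok w (avg w (fun v => K v 0 0)) k00
  e00 : k00.F = fun v => K v 0 0
  h01 : MR.ok w (avg w (fun v => K v 0 1)) k01
  e01 : k01.F = fun v => K v 0 1
  h02 : MR.ok w (avg w (fun v => K v 0 2)) k02
  e02 : k02.F = fun v => K v 0 2
  h11 : MR.ok w (avg w (fun v => K v 1 1)) k11
  e11 : k11.F = fun v => K v 1 1
  h12 : MR.ok w (avg w (fun v => K v 1 2)) k12
  e12 : k12.F = fun v => K v 1 2
  h22 : MR.ok w (avg w (fun v => K v 2 2)) k22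
  e22 : k22.F = fun v => K v 2 2

/-- BLOCK INEQUALITY AT A POINT OF THE CELL -/
theorem blk_point {u : V → ℝ} (hu : Wts u) {K K' : V → M3} (hK : ∀ v, Herm (K' v))
    (k' : KMod u K') (p q r : ℕ) (s : Pool.Agent.Helper21.SUP.GS) (m : ℕ) (w : ℂ)
    {me m1 m2 : MR V}
    (he : MR.ok u (ceE (decide (m % 2 = 1)) (kk p q r s.1 s.2.1) (omS p q r s w)) me)
    (h1 : MR.ok u (omS p q r (Pool.Agent.Helper21.SUP.nx s m) w) m1)
    (h2 : MR.ok u (ceC (decide (m % 2 = 1)) (kk p q r s.1 s.2.1) (omS p q r s w)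
      (omS p q r (Pool.Agent.Helper21.SUP.nx s m) w)) m2)
    {R : Fin 3 → Fin 3 → ℝ} (hRs : ∀ i j, R i j = R j i)
    (hR : ∀ i j, Prad k'.k00 k'.k01 k'.k02 k'.k11 k'.k12 k'.k22 me m1 m2 i j ≤ R i j)
    {lam : ℝ} (hl : 0 ≤ lam) (x : Fin 3 → ℂ)
    (hv : ∀ v, qf (K v) x ≤ lam * qf (hat (Pm (K' v) (me.F v) (m1.F v) (m2.F v)) R)
      ((Bm (kk p q r s.1 s.2.1) (Rb (mm p q r s.1 s.2.1) (m - 1))).mulVec x)) :
    qf (avgF u K) x ≤ lam * qf (avgF u K') ((RMb p q r s m w).mulVec x) := by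
  rw [RMb_mulVec]
  exact cell_block hu hK k'.h00 k'.e00 k'.h01 k'.e01 k'.h02 k'.e02 k'.h11 k'.e11 k'.h12 k'.e12
    k'.h22 k'.e22 he h1 h2 hRs hR hl hv

/-- THE CONVENTION `N - lam K ≥ μ`: block inequality at a point of the cell, `lam ≥ 0` -/
theorem blk_point' {u : V → ℝ} (hu : Wts u) {K K' : V → M3} (hK : ∀ v, Herm (K' v))
    (k' : KMod u K') (p q r : ℕ) (s : Pool.Agent.Helper21.SUP.GS) (m : ℕ) (w : ℂ)
    {me m1 m2 : MR V}
    (he : MR.ok u (ceE (decide (m % 2 = 1)) (kk p q r s.1 s.2.1) (omS p q r s w)) me)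
    (h1 : MR.ok u (omS p q r (Pool.Agent.Helper21.SUP.nx s m) w) m1)
    (h2 : MR.ok u (ceC (decide (m % 2 = 1)) (kk p q r s.1 s.2.1) (omS p q r s w)
      (omS p q r (Pool.Agent.Helper21.SUP.nx s m) w)) m2)
    {R : Fin 3 → Fin 3 → ℝ} (hRs : ∀ i j, R i j = R j i)
    (hR : ∀ i j, Prad k'.k00 k'.k01 k'.k02 k'.k11 k'.k12 k'.k22 me m1 m2 i j ≤ R i j)
    {lam μ : ℝ} (x : Fin 3 → ℂ)
    (hv : ∀ v, lam * qf (K v) x + μ * nsq x ≤
      qf (hat (Pm (K' v) (me.F v) (m1.F v) (m2.F v)) R)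
      ((Bm (kk p q r s.1 s.2.1) (Rb (mm p q r s.1 s.2.1) (m - 1))).mulVec x)) :
    lam * qf (avgF u K) x + μ * nsq x ≤ qf (avgF u K') ((RMb p q r s m w).mulVec x) := by
  rw [RMb_mulVec]
  have h := cell_block' hu hK k'.h00 k'.e00 k'.h01 k'.e01 k'.h02 k'.e02 k'.h11 k'.e11 k'.h12 k'.e12
    k'.h22 k'.e22 he h1 h2 hRs hR hv
  refine le_trans (le_of_eq ?_) h
  rw [qf_avgF, Finset.mul_sum]
  calc ∑ v, lam * (u v * qf (K v) x) + μ * nsq x
      = ∑ v, lam * (u v * qf (K v) x) + ∑ v, u v * (μ * nsq x) := by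
        rw [← Finset.sum_mul, hu.sum, one_mul]
    _ = _ := by
        rw [← Finset.sum_add_distrib]
        exact Finset.sum_congr rfl fun v _ => by ring

/-! ### models of the change of star from models of `om` -/

/-- `e` for odd numbers of crossings -/
theorem ok_ceE {u : V → ℝ} (hu : Wts u) {k : ℝ} {om : ℂ} {mo ma mb : MR V} (ho : MR.ok u om mo)
    (ha : MR.ok u ((k : ℂ) / 2) ma) (hb : MR.ok u ((k : ℂ) ^ 2 / (4 * (2 + (k : ℂ)))) mb) :
    MR.ok u (ceE false k om) ((ma.mul mo).sub mb) := by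
  have h := (ha.mul hu ho).sub hb
  have e : ceE false k om = (k : ℂ) / 2 * om - (k : ℂ) ^ 2 / (4 * (2 + (k : ℂ))) := by
    simp only [ceE, Bool.false_eq_true, if_false]
    ring
  rw [e]
  exact h

/-- `c₂` for odd numbers of crossings -/
theorem ok_ceC {u : V → ℝ} (hu : Wts u) {k : ℝ} {om om' : ℂ} {mo mo' ma mh : MR V}
    (ho : MR.ok u om mo) (ho' : MR.ok u om' mo') (ha : MR.ok u ((k : ℂ) / 2) ma)
    (hh : MR.ok u (1 / 2) mh) :
    MR.ok u (ceC false k om om') ((mo'.mul ma).mul (mh.sub mo)) := by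
  have h := (ho'.mul hu ha).mul hu (hh.sub ho)
  have e : ceC false k om om' = om' * ((k : ℂ) / 2) * (1 / 2 - om) := by
    simp only [ceC, Bool.false_eq_true, if_false]
  rw [e]
  exact h

theorem ok_ceC' {u : V → ℝ} (hu : Wts u) {k : ℝ} {om om' : ℂ} {mo mo' : MR V}
    (ho : MR.ok u om mo) (ho' : MR.ok u om' mo') :
    MR.ok u (ceC true k om om') (mo.mul mo') := by
  have h := ho.mul hu ho'
  have e : ceC true k om om' = om * om' := by simp only [ceC, if_true]
  rw [e]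
  exact h

/-! ### linear conditions at the vertices -/

/-- any lower bound of the forms at the vertices by a common function passes to the cell -/
theorem qf_avgF_ge {u : V → ℝ} (hu : Wts u) {K : V → M3} {x : Fin 3 → ℂ} {c : ℝ}
    (h : ∀ v, c ≤ qf (K v) x) : c ≤ qf (avgF u K) x := by
  rw [qf_avgF]
  calc c = ∑ v, u v * c := by rw [← Finset.sum_mul, hu.sum, one_mul]
    _ ≤ _ := Finset.sum_le_sum fun v _ => mul_le_mul_of_nonneg_left (h v) (hu.nonneg v)

theorem qf_avgF_le {u : V → ℝ} (hu : Wts u) {K : V → M3} {x : Fin 3 → ℂ} {c : ℝ}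
    (h : ∀ v, qf (K v) x ≤ c) : qf (avgF u K) x ≤ c := by
  rw [qf_avgF]
  calc _ ≤ ∑ v, u v * c :=
        Finset.sum_le_sum fun v _ => mul_le_mul_of_nonneg_left (h v) (hu.nonneg v)
    _ = c := by rw [← Finset.sum_mul, hu.sum, one_mul]

/-- `om` in terms of `z` -/
theorem omS_z (p q r : ℕ) (s : Pool.Agent.Helper21.SUP.GS) {w : ℂ} (h1 : 1 + w ≠ 0)
    (h2 : 1 - w ≠ 0) :
    omS p q r s w = (2 * (1 + (lamS p q r s : ℂ) *
      (if oriZ s then (1 + w) / (1 - w) else ((1 + w) / (1 - w))⁻¹)))⁻¹ := by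
  unfold omS omW
  generalize (lamS p q r s : ℂ) = l
  cases oriZ s
  · simp only [Bool.false_eq_true, if_false, inv_div]
    rw [inv_eq_one_div]
    have e : 2 * (1 + l * ((1 - w) / (1 + w))) = 2 * ((1 + w) + l * (1 - w)) / (1 + w) := by
      field_simp
    rw [e, one_div_div]
  · simp only [if_true]
    rw [inv_eq_one_div]
    have e : 2 * (1 + l * ((1 + w) / (1 - w))) = 2 * ((1 - w) + l * (1 + w)) / (1 - w) := by
      field_simp
    rw [e, one_div_div]

end Pool.Agent.Helper90.C75
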