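import Pool.Agent.C75W.Im

/-!
MP_c75db0 (row BQ): roots of cubics near an approximate root, and the splitting of the
characteristic polynomial of `W_B` into the simple eigenvalue and the critical pair.
-/

set_option autoImplicit false

namespace Pool.Agent.Helper90.C75

/-- a monic quadratic over `ℂ` splits -/
theorem quad_split (b c : ℂ) : ∃ u v : ℂ, u + v = -b ∧ u * v = c := by
  obtain ⟨s, hs⟩ := IsAlgClosed.exists_pow_nat_eq (b ^ 2 - 4 * c) (n := 2) (by norm_num)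
  refine ⟨(-b + s) / 2, (-b - s) / 2, by ring, ?_⟩
  linear_combination (-1 / 4 : ℂ) * hs

/-- a monic cubic over `ℂ` splits -/
theorem cub_split (a b c : ℂ) : ∃ u v w : ℂ, ∀ t : ℂ,
    t ^ 3 + a * t ^ 2 + b * t + c = (t - u) * (t - v) * (t - w) := by
  have hdeg : (Polynomial.X ^ 3 + Polynomial.C a * Polynomial.X ^ 2 + Polynomial.C b * Polynomial.X
      + Polynomial.C c : Polynomial ℂ).degree ≠ 0 := by
    have h : (Polynomial.X ^ 3 + Polynomial.C a * Polynomial.X ^ 2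
      + Polynomial.C b * Polynomial.X + Polynomial.C c : Polynomial ℂ).degree = 3 := by
      compute_degree!
    rw [h]
    norm_num
  obtain ⟨u, hu⟩ := IsAlgClosed.exists_root _ hdeg
  simp only [Polynomial.IsRoot.def, Polynomial.eval_add, Polynomial.eval_mul,
    Polynomial.eval_pow, Polynomial.eval_X, Polynomial.eval_C] at hu
  obtain ⟨v, w, h1, h2⟩ := quad_split (u + a) (u ^ 2 + a * u + b)
  refine ⟨u, v, w, fun t => ?_⟩
  have e : t ^ 3 + a * t ^ 2 + b * t + c - (u ^ 3 + a * u ^ 2 + b * u + c)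
      = (t - u) * (t ^ 2 + (u + a) * t + (u ^ 2 + a * u + b)) := by ring
  have e2 : (t - v) * (t - w) = t ^ 2 + (u + a) * t + (u ^ 2 + a * u + b) := by
    linear_combination (-t) * h1 + h2
  rw [mul_assoc, e2, ← e, hu, sub_zero]

/-- NEARBY ROOT: one of the roots of a monic cubic `f` is within `3 |f t₀| / |f' t₀|` of `t₀` -/
theorem cub_near (a b c t₀ : ℂ) (ε : ℝ)
    (h : 3 * ‖t₀ ^ 3 + a * t₀ ^ 2 + b * t₀ + c‖ ≤ ε * ‖3 * t₀ ^ 2 + 2 * a * t₀ + b‖)
    (hd : 3 * t₀ ^ 2 + 2 * a * t₀ + b ≠ 0) :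
    ∃ ν : ℂ, ν ^ 3 + a * ν ^ 2 + b * ν + c = 0 ∧ ‖t₀ - ν‖ ≤ ε := by
  obtain ⟨u, v, w, hf⟩ := cub_split a b c
  have hroot : ∀ x, (x = u ∨ x = v ∨ x = w) → x ^ 3 + a * x ^ 2 + b * x + c = 0 := by
    rintro x (rfl | rfl | rfl) <;> rw [hf] <;> ring
  -- coefficients
  have ha : a = -(u + v + w) := by
    have h0 := hf 0
    have h1 := hf 1
    have h2 := hf (-1)
    linear_combination (1 / 2 : ℂ) * h1 + (1 / 2 : ℂ) * h2 - h0
  have hb : b = u * v + v * w + w * u := by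
    have h1 := hf 1
    have h2 := hf (-1)
    linear_combination (1 / 2 : ℂ) * h1 - (1 / 2 : ℂ) * h2
  have hder : 3 * t₀ ^ 2 + 2 * a * t₀ + b
      = (t₀ - u) * (t₀ - v) + (t₀ - v) * (t₀ - w) + (t₀ - w) * (t₀ - u) := by
    rw [ha, hb]; ring
  by_contra hcon
  push Not at hcon
  have hu := hcon u (hroot u (Or.inl rfl))
  have hv := hcon v (hroot v (Or.inr (Or.inl rfl)))
  have hw := hcon w (hroot w (Or.inr (Or.inr rfl)))
  have hpos : 0 < ‖3 * t₀ ^ 2 + 2 * a * t₀ + b‖ := norm_pos_iff.2 hd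
  have hε : 0 ≤ ε := by
    by_contra hneg
    push Not at hneg
    have : 0 ≤ 3 * ‖t₀ ^ 3 + a * t₀ ^ 2 + b * t₀ + c‖ := by positivity
    nlinarith
  rw [hf, hder] at h
  set p := ‖t₀ - u‖ with hp
  set q := ‖t₀ - v‖ with hq
  set r := ‖t₀ - w‖ with hr
  have h1 : ‖(t₀ - u) * (t₀ - v) * (t₀ - w)‖ = p * q * r := by
    rw [norm_mul, norm_mul]
  have h2 : ‖(t₀ - u) * (t₀ - v) + (t₀ - v) * (t₀ - w) + (t₀ - w) * (t₀ - u)‖
      ≤ p * q + q * r + r * p := by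
    refine (norm_add_le _ _).trans (add_le_add ((norm_add_le _ _).trans (add_le_add ?_ ?_)) ?_) <;>
      rw [norm_mul]
  rw [h1] at h
  have hp0 : 0 < p := lt_of_le_of_lt hε hu
  have hq0 : 0 < q := lt_of_le_of_lt hε hv
  have hr0 : 0 < r := lt_of_le_of_lt hε hw
  have h3 : 3 * (p * q * r) ≤ ε * (p * q + q * r + r * p) :=
    h.trans (mul_le_mul_of_nonneg_left h2 hε)
  have k1 : ε * (p * q) < r * (p * q) := mul_lt_mul_of_pos_right hw (by positivity)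
  have k2 : ε * (q * r) < p * (q * r) := mul_lt_mul_of_pos_right hu (by positivity)
  have k3 : ε * (r * p) < q * (r * p) := mul_lt_mul_of_pos_right hv (by positivity)
  nlinarith

/-- the critical pair: trace and determinant of the complementary factor of
`t³ - τ t² + τ' t - δ` -/
theorem cub_pair (τ τ' δ ν t : ℂ) (hν : ν ^ 3 - τ * ν ^ 2 + τ' * ν - δ = 0) :
    t ^ 3 - τ * t ^ 2 + τ' * t - δ = (t - ν) * (t ^ 2 - (τ - ν) * t + (ν ^ 2 - τ * ν + τ')) := by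
  linear_combination hν

/-- `m² = δ/ν` -/
theorem cub_det (τ τ' δ ν : ℂ) (hν : ν ^ 3 - τ * ν ^ 2 + τ' * ν - δ = 0) :
    ν * (ν ^ 2 - τ * ν + τ') = δ := by
  linear_combination hν

/-- `ch² - 1 = ν B / (4 δ χ'(ν)²)` where `B` is the discriminant, `m²` the determinant and
`2 m ch` the trace of the pair -/
theorem cub_disc (τ τ' δ ν m ch : ℂ) (hν : ν ^ 3 - τ * ν ^ 2 + τ' * ν - δ = 0)
    (hm : m ^ 2 = ν ^ 2 - τ * ν + τ') (hch : 2 * m * ch = τ - ν) :
    4 * δ * (3 * ν ^ 2 - 2 * τ * ν + τ') ^ 2 * (ch ^ 2 - 1) =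
      ν * (τ ^ 2 * τ' ^ 2 - 4 * τ ^ 3 * δ - 4 * τ' ^ 3 + 18 * τ * τ' * δ - 27 * δ ^ 2) := by
  have hδ : δ = ν * m ^ 2 := by rw [hm]; linear_combination -hν
  have hτ' : τ' = m ^ 2 - ν ^ 2 + τ * ν := by rw [hm]; ring
  have hτ : τ = 2 * m * ch + ν := by rw [hch]; ring
  rw [hδ, hτ', hτ]
  ring

/-- `χ'(ν)` is the value of the complementary factor at `ν` -/
theorem cub_der (τ τ' ν : ℂ) :
    ν ^ 2 - (τ - ν) * ν + (ν ^ 2 - τ * ν + τ') = 3 * ν ^ 2 - 2 * τ * ν + τ' := by ring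

/-! ### three by three matrices -/

open Matrix

/-- sum of the principal minors of size two -/
def e2 {R : Type*} [CommRing R] (W : Matrix (Fin 3) (Fin 3) R) : R :=
  W 0 0 * W 1 1 - W 0 1 * W 1 0 + (W 1 1 * W 2 2 - W 1 2 * W 2 1) + (W 0 0 * W 2 2 - W 0 2 * W 2 0)

/-- Cayley-Hamilton for `3 × 3` matrices -/
theorem cay3 {R : Type*} [CommRing R] (W : Matrix (Fin 3) (Fin 3) R) :
    W * W * W - W.trace • (W * W) + e2 W • W - W.det • (1 : Matrix (Fin 3) (Fin 3) R) = 0 := by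
  ext i j
  fin_cases i <;> fin_cases j <;>
    simp [Matrix.mul_apply, Fin.sum_univ_three, Matrix.trace, Matrix.det_fin_three, e2] <;> ring

/-- the factorisation of the characteristic polynomial, on the matrix -/
theorem cay3_split (W : Matrix (Fin 3) (Fin 3) ℂ) (ν m ch : ℂ)
    (hν : ν ^ 3 - W.trace * ν ^ 2 + e2 W * ν - W.det = 0)
    (hm : m ^ 2 = ν ^ 2 - W.trace * ν + e2 W) (hch : 2 * m * ch = W.trace - ν) :
    (W - ν • (1 : Matrix (Fin 3) (Fin 3) ℂ)) *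
      (W * W - (2 * m * ch) • W + (m ^ 2) • (1 : Matrix (Fin 3) (Fin 3) ℂ)) = 0 := by
  have h := cay3 W
  have e : (W - ν • (1 : Matrix (Fin 3) (Fin 3) ℂ)) *
      (W * W - (2 * m * ch) • W + (m ^ 2) • (1 : Matrix (Fin 3) (Fin 3) ℂ))
      = W * W * W - W.trace • (W * W) + e2 W • W - W.det • (1 : Matrix (Fin 3) (Fin 3) ℂ) := by
    rw [hch, hm]
    have h1 : (W - ν • (1 : Matrix (Fin 3) (Fin 3) ℂ)) *
      (W * W - (W.trace - ν) • W + (ν ^ 2 - W.trace * ν + e2 W) • (1 : Matrix (Fin 3) (Fin 3) ℂ))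
      = W * W * W - (W.trace - ν) • (W * W) + (ν ^ 2 - W.trace * ν + e2 W) • W
        - ν • (W * W) + (ν * (W.trace - ν)) • W
        - (ν * (ν ^ 2 - W.trace * ν + e2 W)) • (1 : Matrix (Fin 3) (Fin 3) ℂ) := by
      simp only [sub_mul, mul_add, mul_sub, mul_smul_comm, smul_mul_assoc, mul_one, one_mul,
        mul_assoc]
      module
    rw [h1]
    ext i j
    simp only [Matrix.add_apply, Matrix.sub_apply, Matrix.smul_apply, smul_eq_mul]
    linear_combination (-(1 : Matrix (Fin 3) (Fin 3) ℂ) i j) * hν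
  rw [e, h]

/-- choice of `m` and `ch` for a given simple eigenvalue -/
theorem exists_m_ch (τ τ' ν : ℂ) (h : ν ^ 2 - τ * ν + τ' ≠ 0) :
    ∃ m ch : ℂ, m ≠ 0 ∧ m ^ 2 = ν ^ 2 - τ * ν + τ' ∧ 2 * m * ch = τ - ν ∧ 0 ≤ ch.re := by
  obtain ⟨m, hm⟩ := IsAlgClosed.exists_pow_nat_eq (ν ^ 2 - τ * ν + τ') (n := 2) (by norm_num)
  have hm0 : m ≠ 0 := by rintro rfl; exact h (by rw [← hm]; norm_num)
  rcases le_total 0 ((τ - ν) / (2 * m)).re with h0 | h0
  · exact ⟨m, (τ - ν) / (2 * m), hm0, hm, by field_simp, h0⟩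
  · refine ⟨-m, -((τ - ν) / (2 * m)), neg_ne_zero.2 hm0, by rw [neg_sq, hm], by field_simp, ?_⟩
    rw [Complex.neg_re]
    linarith

end Pool.Agent.Helper90.C75
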