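import Pool.Agent.Helper90.C75.Mdl

/-!
MP_c75db0, format (F5): from the vertices of a cell to the cell.
-/

set_option autoImplicit false

namespace Pool.Agent.Helper90.C75

open Finset

abbrev M3 : Type := Fin 3 → Fin 3 → ℂ

/-- the quadratic form of a matrix -/
noncomputable def qf (H : M3) (x : Fin 3 → ℂ) : ℝ := (∑ i, ∑ j, star (x i) * H i j * x j).re

/-- squared norm -/
noncomputable def nsq (x : Fin 3 → ℂ) : ℝ := ∑ i, ‖x i‖ ^ 2

theorem nsq_nonneg (x : Fin 3 → ℂ) : 0 ≤ nsq x := Finset.sum_nonneg fun _ _ => sq_nonneg _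

theorem nsq_pos {x : Fin 3 → ℂ} (hx : x ≠ 0) : 0 < nsq x := by
  obtain ⟨i, hi⟩ := Function.ne_iff.1 hx
  refine Finset.sum_pos' (fun _ _ => sq_nonneg _) ⟨i, Finset.mem_univ _, ?_⟩
  have : 0 < ‖x i‖ := norm_pos_iff.2 (by simpa using hi)
  positivity

theorem qf_sub (H K : M3) (x : Fin 3 → ℂ) :
    qf (fun i j => H i j - K i j) x = qf H x - qf K x := by
  simp only [qf, ← Complex.sub_re, ← Finset.sum_sub_distrib]
  congr 1
  exact Finset.sum_congr rfl fun i _ => Finset.sum_congr rfl fun j _ => by ring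

theorem qf_smul (c : ℝ) (H : M3) (x : Fin 3 → ℂ) :
    qf (fun i j => (c : ℂ) * H i j) x = c * qf H x := by
  simp only [qf]
  rw [← Complex.re_ofReal_mul]
  simp only [Finset.mul_sum]
  congr 1
  exact Finset.sum_congr rfl fun i _ => Finset.sum_congr rfl fun j _ => by ring

/-- the form of an average is the average of the forms -/
theorem qf_avg {V : Type*} [Fintype V] (w : V → ℝ) (F : V → M3) (x : Fin 3 → ℂ) :
    qf (fun i j => avg w (fun v => F v i j)) x = ∑ v, w v * qf (F v) x := by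
  have h : ∀ v, w v * qf (F v) x = ((w v : ℂ) * ∑ i, ∑ j, star (x i) * F v i j * x j).re :=
    fun v => (Complex.re_ofReal_mul _ _).symm
  simp only [h, ← Complex.re_sum]
  simp only [qf, avg, Finset.mul_sum, Finset.sum_mul]
  congr 1
  calc ∑ i, ∑ j, ∑ v, star (x i) * (↑(w v) * F v i j) * x j
      = ∑ i, ∑ v, ∑ j, star (x i) * (↑(w v) * F v i j) * x j := by
        refine Finset.sum_congr rfl fun i _ => Finset.sum_comm
    _ = ∑ v, ∑ i, ∑ j, star (x i) * (↑(w v) * F v i j) * x j := Finset.sum_comm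
    _ = ∑ v, ∑ i, ∑ j, ↑(w v) * (star (x i) * F v i j * x j) := by
        refine Finset.sum_congr rfl fun v _ => Finset.sum_congr rfl fun i _ =>
          Finset.sum_congr rfl fun j _ => by ring

/-- entrywise errors: radii turned into a diagonal -/
theorem qf_err {P Q : M3} {r : Fin 3 → Fin 3 → ℝ} (hr : ∀ i j, r i j = r j i)
    (h : ∀ i j, ‖P i j - Q i j‖ ≤ r i j) (x : Fin 3 → ℂ) :
    |qf P x - qf Q x| ≤ ∑ i, (∑ j, r i j) * ‖x i‖ ^ 2 := by
  rw [← qf_sub]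
  have h1 : |qf (fun i j => P i j - Q i j) x| ≤ ∑ i, ∑ j, r i j * (‖x i‖ * ‖x j‖) := by
    refine (Complex.abs_re_le_norm _).trans ((norm_sum_le _ _).trans
      (Finset.sum_le_sum fun i _ => (norm_sum_le _ _).trans (Finset.sum_le_sum fun j _ => ?_)))
    rw [norm_mul, norm_mul, norm_star]
    calc ‖x i‖ * ‖P i j - Q i j‖ * ‖x j‖ = ‖P i j - Q i j‖ * (‖x i‖ * ‖x j‖) := by ring
      _ ≤ r i j * (‖x i‖ * ‖x j‖) := mul_le_mul_of_nonneg_right (h i j) (by positivity)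
  have hr0 : ∀ i j, 0 ≤ r i j := fun i j => (norm_nonneg _).trans (h i j)
  have h2 : ∑ i, ∑ j, r i j * (‖x i‖ * ‖x j‖)
      ≤ ∑ i, ∑ j, r i j * ((‖x i‖ ^ 2 + ‖x j‖ ^ 2) / 2) := by
    refine Finset.sum_le_sum fun i _ => Finset.sum_le_sum fun j _ =>
      mul_le_mul_of_nonneg_left ?_ (hr0 i j)
    nlinarith [sq_nonneg (‖x i‖ - ‖x j‖)]
  have h3 : ∑ i, ∑ j, r i j * ((‖x i‖ ^ 2 + ‖x j‖ ^ 2) / 2) = ∑ i, (∑ j, r i j) * ‖x i‖ ^ 2 := by
    have e1 : ∑ i, ∑ j, r i j * ((‖x i‖ ^ 2 + ‖x j‖ ^ 2) / 2)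
        = (∑ i, ∑ j, r i j * ‖x i‖ ^ 2) / 2 + (∑ i, ∑ j, r i j * ‖x j‖ ^ 2) / 2 := by
      rw [← add_div, ← Finset.sum_add_distrib, Finset.sum_div]
      refine Finset.sum_congr rfl fun i _ => ?_
      rw [← Finset.sum_add_distrib, Finset.sum_div]
      exact Finset.sum_congr rfl fun j _ => by ring
    have e2 : ∑ i, ∑ j, r i j * ‖x j‖ ^ 2 = ∑ i, ∑ j, r i j * ‖x i‖ ^ 2 := by
      rw [Finset.sum_comm]
      exact Finset.sum_congr rfl fun i _ => Finset.sum_congr rfl fun j _ => by rw [hr j i]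
    rw [e1, e2]
    have e3 : ∑ i, (∑ j, r i j) * ‖x i‖ ^ 2 = ∑ i, ∑ j, r i j * ‖x i‖ ^ 2 :=
      Finset.sum_congr rfl fun i _ => by rw [Finset.sum_mul]
    rw [e3]
    ring
  linarith

/-- the diagonal form -/
theorem qf_diag (a : Fin 3 → ℝ) (x : Fin 3 → ℂ) :
    qf (fun i j => if i = j then (a i : ℂ) else 0) x = ∑ i, a i * ‖x i‖ ^ 2 := by
  simp only [qf, Complex.re_sum]
  refine Finset.sum_congr rfl fun i _ => ?_
  rw [Finset.sum_eq_single i (fun j _ hj => by simp [Ne.symm hj]) (by simp)]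
  simp only [if_true]
  have : star (x i) * (a i : ℂ) * x i = (a i : ℂ) * (x i * star (x i)) := by ring
  rw [this, Complex.re_ofReal_mul, Complex.star_def, Complex.mul_conj, Complex.ofReal_re,
    Complex.normSq_eq_norm_sq]

/-- subtracting the row sums of the radii -/
noncomputable def hat (P : M3) (r : Fin 3 → Fin 3 → ℝ) : M3 :=
  fun i j => P i j - if i = j then ((∑ k, r i k : ℝ) : ℂ) else 0

theorem qf_hat (P : M3) (r : Fin 3 → Fin 3 → ℝ) (x : Fin 3 → ℂ) :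
    qf (hat P r) x = qf P x - ∑ i, (∑ k, r i k) * ‖x i‖ ^ 2 := by
  have h := qf_diag (fun i => ∑ k, r i k) x
  unfold hat
  rw [qf_sub P (fun i j => if i = j then ((∑ k, r i k : ℝ) : ℂ) else 0) x, h]

/-- FROM THE VERTICES TO THE CELL: `P` has a model with vertex matrices `Pv v` and radii `r`; at
every vertex `lam * Phat_v (B x) ≥ K_v x`; then `lam * P (B x) ≥ K x` for the averaged form `K`. -/
theorem cell_run {V : Type*} [Fintype V] {w : V → ℝ} (hw : Wts w) {P : M3} {Pv K : V → M3}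
    {r : Fin 3 → Fin 3 → ℝ} (hr : ∀ i j, r i j = r j i)
    (hP : ∀ i j, Mod w (P i j) (fun v => Pv v i j) (r i j)) {lam : ℝ} (hl : 0 ≤ lam)
    {x y : Fin 3 → ℂ} (hv : ∀ v, qf (K v) x ≤ lam * qf (hat (Pv v) r) y) :
    qf (fun i j => avg w (fun v => K v i j)) x ≤ lam * qf P y := by
  rw [qf_avg]
  have h1 : ∑ v, w v * qf (K v) x ≤ ∑ v, w v * (lam * qf (hat (Pv v) r) y) :=
    Finset.sum_le_sum fun v _ => mul_le_mul_of_nonneg_left (hv v) (hw.nonneg v)
  have h2 : ∑ v, w v * (lam * qf (hat (Pv v) r) y)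
      = lam * (∑ v, w v * qf (Pv v) y - ∑ i, (∑ k, r i k) * ‖y i‖ ^ 2) := by
    calc ∑ v, w v * (lam * qf (hat (Pv v) r) y)
        = ∑ v, (lam * (w v * qf (Pv v) y) - w v * (lam * ∑ i, (∑ k, r i k) * ‖y i‖ ^ 2)) := by
          refine Finset.sum_congr rfl fun v _ => ?_
          rw [qf_hat]; ring
      _ = _ := by
          rw [Finset.sum_sub_distrib, ← Finset.mul_sum, ← Finset.sum_mul, hw.sum, one_mul]
          ring
  have h3 : ∑ v, w v * qf (Pv v) y - ∑ i, (∑ k, r i k) * ‖y i‖ ^ 2 ≤ qf P y := by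
    have h4 := qf_err (P := P) (Q := fun i j => avg w (fun v => Pv v i j)) hr hP y
    rw [qf_avg] at h4
    linarith [(abs_le.1 h4).1]
  calc ∑ v, w v * qf (K v) x ≤ _ := h1
    _ = _ := h2
    _ ≤ lam * qf P y := mul_le_mul_of_nonneg_left h3 hl

/-- the same with arbitrary lower bounds at the vertices, `lam = 1` -/
theorem cell_run' {V : Type*} [Fintype V] {w : V → ℝ} (hw : Wts w) {P : M3} {Pv : V → M3}
    {r : Fin 3 → Fin 3 → ℝ} (hr : ∀ i j, r i j = r j i)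
    (hP : ∀ i j, Mod w (P i j) (fun v => Pv v i j) (r i j))
    {y : Fin 3 → ℂ} {a : V → ℝ} (hv : ∀ v, a v ≤ qf (hat (Pv v) r) y) :
    ∑ v, w v * a v ≤ qf P y := by
  have h1 : ∑ v, w v * a v ≤ ∑ v, w v * qf (hat (Pv v) r) y :=
    Finset.sum_le_sum fun v _ => mul_le_mul_of_nonneg_left (hv v) (hw.nonneg v)
  have h2 : ∑ v, w v * qf (hat (Pv v) r) y
      = ∑ v, w v * qf (Pv v) y - ∑ i, (∑ k, r i k) * ‖y i‖ ^ 2 := by
    calc ∑ v, w v * qf (hat (Pv v) r) y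
        = ∑ v, (w v * qf (Pv v) y - w v * ∑ i, (∑ k, r i k) * ‖y i‖ ^ 2) := by
          refine Finset.sum_congr rfl fun v _ => ?_
          rw [qf_hat]; ring
      _ = _ := by rw [Finset.sum_sub_distrib, ← Finset.sum_mul, hw.sum, one_mul]
  have h4 := qf_err (P := P) (Q := fun i j => avg w (fun v => Pv v i j)) hr hP y
  rw [qf_avg] at h4
  linarith [(abs_le.1 h4).1]

/-- uniform entrywise error -/
theorem qf_err_unif {P Q : M3} {e : ℝ} (h : ∀ i j, ‖P i j - Q i j‖ ≤ e) (x : Fin 3 → ℂ) :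
    |qf P x - qf Q x| ≤ 3 * e * nsq x := by
  have h1 := qf_err (P := P) (Q := Q) (r := fun _ _ => e) (fun _ _ => rfl) h x
  have h2 : ∑ i : Fin 3, (∑ _j : Fin 3, e) * ‖x i‖ ^ 2 = 3 * e * nsq x := by
    unfold nsq
    rw [Finset.mul_sum]
    refine Finset.sum_congr rfl fun i _ => ?_
    simp
  rw [h2] at h1
  exact h1

/-- congruence by a real matrix -/
noncomputable def congr3 (B : Fin 3 → Fin 3 → ℝ) (P : M3) : M3 :=
  fun i j => ∑ k, ∑ l, (B k i : ℂ) * P k l * (B l j : ℂ)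

theorem qf_congr (B : Fin 3 → Fin 3 → ℝ) (P : M3) (x : Fin 3 → ℂ) :
    qf (congr3 B P) x = qf P (fun k => ∑ i, (B k i : ℂ) * x i) := by
  simp only [qf, congr3]
  congr 1
  have h : ∀ k l, star (∑ i, (B k i : ℂ) * x i) * P k l * (∑ j, (B l j : ℂ) * x j)
      = ∑ i, ∑ j, star (x i) * ((B k i : ℂ) * P k l * (B l j : ℂ)) * x j := by
    intro k l
    rw [star_sum, Finset.sum_mul, Finset.sum_mul]
    refine Finset.sum_congr rfl fun i _ => ?_
    rw [Finset.mul_sum]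
    refine Finset.sum_congr rfl fun j _ => ?_
    rw [star_mul', Complex.star_def, Complex.conj_ofReal]
    ring
  simp only [h, Finset.mul_sum, Finset.sum_mul]
  calc ∑ i, ∑ j, ∑ k, ∑ l, star (x i) * ((B k i : ℂ) * P k l * (B l j : ℂ)) * x j
      = ∑ i, ∑ k, ∑ j, ∑ l, star (x i) * ((B k i : ℂ) * P k l * (B l j : ℂ)) * x j :=
        Finset.sum_congr rfl fun i _ => Finset.sum_comm
    _ = ∑ k, ∑ i, ∑ j, ∑ l, star (x i) * ((B k i : ℂ) * P k l * (B l j : ℂ)) * x j :=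
        Finset.sum_comm
    _ = ∑ k, ∑ i, ∑ l, ∑ j, star (x i) * ((B k i : ℂ) * P k l * (B l j : ℂ)) * x j :=
        Finset.sum_congr rfl fun k _ => Finset.sum_congr rfl fun i _ => Finset.sum_comm
    _ = ∑ k, ∑ l, ∑ i, ∑ j, star (x i) * ((B k i : ℂ) * P k l * (B l j : ℂ)) * x j :=
        Finset.sum_congr rfl fun k _ => Finset.sum_comm

/-- perturbation of the congruence: `|B - B'| ≤ δ`, `|B|, |B'| ≤ β`, `|P| ≤ π` -/
theorem congr3_err {B B' : Fin 3 → Fin 3 → ℝ} {P : M3} {δ β π : ℝ}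
    (hB : ∀ i j, |B i j - B' i j| ≤ δ) (h1 : ∀ i j, |B i j| ≤ β) (h2 : ∀ i j, |B' i j| ≤ β)
    (hP : ∀ i j, ‖P i j‖ ≤ π) (i j : Fin 3) :
    ‖congr3 B P i j - congr3 B' P i j‖ ≤ 18 * (π * β * δ) := by
  have hβ : 0 ≤ β := (abs_nonneg _).trans (h1 0 0)
  have hδ : 0 ≤ δ := (abs_nonneg _).trans (hB 0 0)
  have hπ : 0 ≤ π := (norm_nonneg _).trans (hP 0 0)
  have hterm : ∀ k l, ‖(B k i : ℂ) * P k l * (B l j : ℂ) - (B' k i : ℂ) * P k l * (B' l j : ℂ)‖
      ≤ 2 * (π * β * δ) := by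
    intro k l
    have e : (B k i : ℂ) * P k l * (B l j : ℂ) - (B' k i : ℂ) * P k l * (B' l j : ℂ)
        = ((B k i - B' k i : ℝ) : ℂ) * P k l * (B l j : ℂ)
          + (B' k i : ℂ) * P k l * ((B l j - B' l j : ℝ) : ℂ) := by
      push_cast; ring
    rw [e]
    refine (norm_add_le _ _).trans ?_
    rw [norm_mul, norm_mul, norm_mul, norm_mul, Complex.norm_real, Complex.norm_real,
      Complex.norm_real, Complex.norm_real, Real.norm_eq_abs, Real.norm_eq_abs, Real.norm_eq_abs,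
      Real.norm_eq_abs]
    have a1 : |B k i - B' k i| * ‖P k l‖ * |B l j| ≤ δ * π * β :=
      mul_le_mul (mul_le_mul (hB k i) (hP k l) (norm_nonneg _) hδ) (h1 l j) (abs_nonneg _)
        (mul_nonneg hδ hπ)
    have a2 : |B' k i| * ‖P k l‖ * |B l j - B' l j| ≤ β * π * δ :=
      mul_le_mul (mul_le_mul (h2 k i) (hP k l) (norm_nonneg _) hβ) (hB l j) (abs_nonneg _)
        (mul_nonneg hβ hπ)
    linarith
  simp only [congr3, ← Finset.sum_sub_distrib]
  calc ‖∑ k, ∑ l, ((B k i : ℂ) * P k l * (B l j : ℂ) - (B' k i : ℂ) * P k l * (B' l j : ℂ))‖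
      ≤ ∑ k : Fin 3, ∑ l : Fin 3, 2 * (π * β * δ) :=
        (norm_sum_le _ _).trans (Finset.sum_le_sum fun k _ =>
          (norm_sum_le _ _).trans (Finset.sum_le_sum fun l _ => hterm k l))
    _ = 18 * (π * β * δ) := by
        simp
        ring

end Pool.Agent.Helper90.C75
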