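import Pool.Agent.Helper90.C75.PMod
import Pool.Agent.Helper90.C75.Zed

/-!
MP_c75db0: integer models. All numbers have the unit `2^-U`; a model is a list of vertex values, a
centre, a radius, a bound and a disc radius. The checks are Boolean functions of integers.
-/

set_option autoImplicit false

namespace Pool.Agent.Helper90.C75

open Finset

/-- Gaussian integers -/
structure GI where
  re : ℤ
  im : ℤ
deriving DecidableEq

namespace GI

def zero : GI := ⟨0, 0⟩
def add (a b : GI) : GI := ⟨a.re + b.re, a.im + b.im⟩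
def sub (a b : GI) : GI := ⟨a.re - b.re, a.im - b.im⟩
def mul (a b : GI) : GI := ⟨a.re * b.re - a.im * b.im, a.re * b.im + a.im * b.re⟩
def scal (c : ℤ) (a : GI) : GI := ⟨c * a.re, c * a.im⟩
def conj (a : GI) : GI := ⟨a.re, -a.im⟩
def nsq (a : GI) : ℤ := a.re * a.re + a.im * a.im

/-- the complex number without scaling -/
noncomputable def toC (a : GI) : ℂ := ⟨(a.re : ℝ), (a.im : ℝ)⟩

theorem toC_add (a b : GI) : (a.add b).toC = a.toC + b.toC := by
  apply Complex.ext <;> simp [toC, add]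
theorem toC_sub (a b : GI) : (a.sub b).toC = a.toC - b.toC := by
  apply Complex.ext <;> simp [toC, sub]
theorem toC_mul (a b : GI) : (a.mul b).toC = a.toC * b.toC := by
  apply Complex.ext <;> simp [toC, mul]
theorem toC_scal (c : ℤ) (a : GI) : (scal c a).toC = (c : ℂ) * a.toC := by
  apply Complex.ext <;> simp [toC, scal]
theorem toC_conj (a : GI) : a.conj.toC = star a.toC := by
  apply Complex.ext <;> simp [toC, conj]

theorem norm_sq (a : GI) : ‖a.toC‖ ^ 2 = (a.nsq : ℝ) := by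
  rw [← Complex.normSq_eq_norm_sq, Complex.normSq_apply]
  simp [toC, nsq]

theorem norm_le {a : GI} {B : ℕ} (h : a.nsq ≤ (B : ℤ) * B) : ‖a.toC‖ ≤ B := by
  have h1 : ‖a.toC‖ ^ 2 ≤ (B : ℝ) ^ 2 := by
    rw [norm_sq]
    have : (a.nsq : ℝ) ≤ ((B : ℤ) * B : ℤ) := by exact_mod_cast h
    push_cast at this
    nlinarith
  exact le_of_sq_le_sq h1 (Nat.cast_nonneg B)

end GI

/-- the unit -/
noncomputable def un (U : ℕ) : ℝ := ((2 : ℝ) ^ U)⁻¹

theorem un_pos (U : ℕ) : 0 < un U := by unfold un; positivity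

/-- scaled value -/
noncomputable def sv (U : ℕ) (a : GI) : ℂ := (un U : ℂ) * a.toC

/-- integer models -/
structure MI where
  F : List GI
  c : GI
  r : ℕ
  B : ℕ
  ρ : ℕ

namespace MI

/-- vertex values -/
def at' (m : MI) (v : ℕ) : GI := m.F.getD v GI.zero

/-- well formed: bounds and disc -/
def wf (n : ℕ) (m : MI) : Bool :=
  Nat.beq m.F.length n && decide (m.c.nsq ≤ (m.B : ℤ) * m.B) &&
    m.F.all (fun a => decide (a.nsq ≤ (m.B : ℤ) * m.B) &&
      decide ((a.sub m.c).nsq ≤ (m.ρ : ℤ) * m.ρ))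

/-- `m` is a model of `f` -/
structure ok {n : ℕ} (U : ℕ) (w : Fin n → ℝ) (f : ℂ) (m : MI) : Prop where
  wf : m.wf n = true
  md : Mod w f (fun v => sv U (m.at' v)) (un U * m.r)

/-- the real model -/
noncomputable def toMR {n : ℕ} (U : ℕ) (m : MI) : MR (Fin n) :=
  ⟨fun v => sv U (m.at' v), un U * m.r, un U * m.B, un U * m.ρ⟩

theorem wf_iff {n : ℕ} {m : MI} (h : m.wf n = true) : m.F.length = n ∧
    m.c.nsq ≤ (m.B : ℤ) * m.B ∧ ∀ a ∈ m.F, a.nsq ≤ (m.B : ℤ) * m.B ∧
      (a.sub m.c).nsq ≤ (m.ρ : ℤ) * m.ρ := by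
  unfold wf at h
  rw [Bool.and_eq_true, Bool.and_eq_true, List.all_eq_true] at h
  obtain ⟨⟨h1, h2⟩, h3⟩ := h
  refine ⟨Nat.eq_of_beq_eq_true h1, of_decide_eq_true h2, fun a ha => ?_⟩
  have h4 := h3 a ha
  rw [Bool.and_eq_true] at h4
  exact ⟨of_decide_eq_true h4.1, of_decide_eq_true h4.2⟩

theorem wf_vert {n : ℕ} {m : MI} (h : m.wf n = true) (v : Fin n) :
    (m.at' v).nsq ≤ (m.B : ℤ) * m.B ∧ ((m.at' v).sub m.c).nsq ≤ (m.ρ : ℤ) * m.ρ := by
  obtain ⟨hl, h2, h3⟩ := wf_iff h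
  have hv : (v : ℕ) < m.F.length := by rw [hl]; exact v.2
  have : m.at' v ∈ m.F := by
    unfold at'
    rw [List.getD_eq_getElem _ _ hv]
    exact List.getElem_mem hv
  exact h3 _ this

theorem ok.toMR {n : ℕ} {U : ℕ} {w : Fin n → ℝ} {f : ℂ} {m : MI} (h : ok U w f m) :
    MR.ok w f (m.toMR U) := by
  have hc : m.c.nsq ≤ (m.B : ℤ) * m.B := (wf_iff h.wf).2.1
  refine ⟨h.md, fun v => ?_, sv U m.c, ?_, fun v => ?_⟩
  · show ‖sv U (m.at' v)‖ ≤ un U * m.B
    unfold sv
    rw [norm_mul, Complex.norm_real, Real.norm_of_nonneg (un_pos U).le]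
    exact mul_le_mul_of_nonneg_left (GI.norm_le (wf_vert h.wf v).1) (un_pos U).le
  · show ‖sv U m.c‖ ≤ un U * m.B
    unfold sv
    rw [norm_mul, Complex.norm_real, Real.norm_of_nonneg (un_pos U).le]
    exact mul_le_mul_of_nonneg_left (GI.norm_le hc) (un_pos U).le
  · show ‖sv U (m.at' v) - sv U m.c‖ ≤ un U * m.ρ
    unfold sv
    rw [← mul_sub, ← GI.toC_sub, norm_mul, Complex.norm_real, Real.norm_of_nonneg (un_pos U).le]
    exact mul_le_mul_of_nonneg_left (GI.norm_le (wf_vert h.wf v).2) (un_pos U).le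

/-- all vertices -/
def allV (n : ℕ) (p : ℕ → Bool) : Bool := (List.range n).all p

theorem allV_iff {n : ℕ} {p : ℕ → Bool} (h : allV n p = true) (v : Fin n) : p v = true := by
  simp only [allV, List.all_eq_true, List.mem_range] at h
  exact h v v.2

/-! ### operations -/

/-- `h` is a model of `f + g` -/
def chkAdd (n : ℕ) (f g h : MI) : Bool :=
  h.wf n && decide (f.r + g.r ≤ h.r) && allV n (fun v => decide (h.at' v = (f.at' v).add (g.at' v)))

theorem chkAdd_ok {n U : ℕ} {w : Fin n → ℝ} {a b : ℂ} {f g h : MI} (hf : ok U w a f)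
    (hg : ok U w b g) (hc : chkAdd n f g h = true) : ok U w (a + b) h := by
  simp only [chkAdd, Bool.and_eq_true, decide_eq_true_eq] at hc
  obtain ⟨⟨h1, h2⟩, h3⟩ := hc
  refine ⟨h1, ?_⟩
  have h4 := hf.md.add hg.md
  have e : (fun v : Fin n => sv U (h.at' v)) =
      fun v : Fin n => sv U (f.at' v) + sv U (g.at' v) := by
    funext v
    have := allV_iff h3 v
    simp only [decide_eq_true_eq] at this
    unfold sv
    rw [this, GI.toC_add]; ring
  rw [e]
  refine h4.trans ?_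
  rw [← mul_add]
  exact mul_le_mul_of_nonneg_left (by exact_mod_cast h2) (un_pos U).le

/-- `h` is a model of `f - g` -/
def chkSub (n : ℕ) (f g h : MI) : Bool :=
  h.wf n && decide (f.r + g.r ≤ h.r) && allV n (fun v => decide (h.at' v = (f.at' v).sub (g.at' v)))

theorem chkSub_ok {n U : ℕ} {w : Fin n → ℝ} {a b : ℂ} {f g h : MI} (hf : ok U w a f)
    (hg : ok U w b g) (hc : chkSub n f g h = true) : ok U w (a - b) h := by
  simp only [chkSub, Bool.and_eq_true, decide_eq_true_eq] at hc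
  obtain ⟨⟨h1, h2⟩, h3⟩ := hc
  refine ⟨h1, ?_⟩
  have h4 := hf.md.sub hg.md
  have e : (fun v : Fin n => sv U (h.at' v)) =
      fun v : Fin n => sv U (f.at' v) - sv U (g.at' v) := by
    funext v
    have := allV_iff h3 v
    simp only [decide_eq_true_eq] at this
    unfold sv
    rw [this, GI.toC_sub]; ring
  rw [e]
  refine h4.trans ?_
  rw [← mul_add]
  exact mul_le_mul_of_nonneg_left (by exact_mod_cast h2) (un_pos U).le

/-- `|d| ≤ δ` -/
def small (d : GI) (δ : ℕ) : Bool := decide (d.nsq ≤ (δ : ℤ) * δ)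

theorem small_le {d : GI} {δ : ℕ} (h : small d δ = true) : ‖d.toC‖ ≤ δ := by
  simp only [small, decide_eq_true_eq] at h
  exact GI.norm_le h

theorem un_sq (U : ℕ) : un U * (2 : ℝ) ^ U = 1 := by unfold un; field_simp

/-- `h` is a model of `f * g`, rounding error `δ` (unit `2^-2U`) at the vertices -/
def chkMul (U n δ : ℕ) (f g h : MI) : Bool :=
  h.wf n && decide (f.r * g.B + g.r * f.B + f.r * g.r + f.ρ * g.ρ + δ ≤ h.r * 2 ^ U) &&
    allV n (fun v => small (((f.at' v).mul (g.at' v)).sub (GI.scal (2 ^ U) (h.at' v))) δ)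

theorem chkMul_ok {n U δ : ℕ} {w : Fin n → ℝ} (hw : Wts w) {a b : ℂ} {f g h : MI}
    (hf : ok U w a f) (hg : ok U w b g) (hc : chkMul U n δ f g h = true) : ok U w (a * b) h := by
  simp only [chkMul, Bool.and_eq_true, decide_eq_true_eq] at hc
  obtain ⟨⟨h1, h2⟩, h3⟩ := hc
  refine ⟨h1, ?_⟩
  have h4 := (hf.toMR.mul hw hg.toMR).md
  have h5 := h4.round hw (F' := fun v => sv U (h.at' v)) (δ := un U * un U * δ) (by
    intro v
    show ‖sv U (f.at' v) * sv U (g.at' v) - sv U (h.at' v)‖ ≤ _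
    have h6 := small_le (allV_iff h3 v)
    rw [GI.toC_sub, GI.toC_mul, GI.toC_scal] at h6
    have e : sv U (f.at' v) * sv U (g.at' v) - sv U (h.at' v)
        = ((un U * un U : ℝ) : ℂ) * ((f.at' v).toC * (g.at' v).toC
          - ((2 ^ U : ℤ) : ℂ) * (h.at' v).toC) := by
      have h7 : ((un U : ℝ) : ℂ) * ((2 : ℂ) ^ U) = 1 := by exact_mod_cast un_sq U
      unfold sv
      push_cast
      linear_combination ((un U : ℝ) : ℂ) * (h.at' v).toC * h7
    rw [e, norm_mul, Complex.norm_real, Real.norm_of_nonneg (by have := un_pos U; positivity)]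
    exact mul_le_mul_of_nonneg_left h6 (by have := un_pos U; positivity))
  refine h5.trans ?_
  have hu := un_pos U
  have h7 : ((f.r * g.B + g.r * f.B + f.r * g.r + f.ρ * g.ρ + δ : ℕ) : ℝ) ≤ ((h.r * 2 ^ U : ℕ) : ℝ) := by
    exact_mod_cast h2
  push_cast at h7
  have h8 := mul_le_mul_of_nonneg_left h7 (by positivity : 0 ≤ un U * un U)
  have h9 : un U * un U * (↑h.r * 2 ^ U) = un U * h.r := by
    have := un_sq U
    calc un U * un U * (↑h.r * 2 ^ U) = (un U * 2 ^ U) * (un U * h.r) := by ring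
      _ = un U * h.r := by rw [this, one_mul]
  rw [h9] at h8
  refine le_trans (le_of_eq ?_) h8
  show un U * f.r * (un U * g.B) + un U * g.r * (un U * f.B) + un U * f.r * (un U * g.r)
    + un U * f.ρ * (un U * g.ρ) + un U * un U * δ = _
  ring

/-- `h` is a model of `conj f` -/
def chkConj (n : ℕ) (f h : MI) : Bool :=
  h.wf n && decide (f.r ≤ h.r) && allV n (fun v => decide (h.at' v = (f.at' v).conj))

theorem chkConj_ok {n U : ℕ} {w : Fin n → ℝ} {a : ℂ} {f h : MI} (hf : ok U w a f)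
    (hc : chkConj n f h = true) : ok U w (star a) h := by
  simp only [chkConj, Bool.and_eq_true, decide_eq_true_eq] at hc
  obtain ⟨⟨h1, h2⟩, h3⟩ := hc
  refine ⟨h1, ?_⟩
  have e : (fun v : Fin n => sv U (h.at' v)) = fun v : Fin n => star (sv U (f.at' v)) := by
    funext v
    have := allV_iff h3 v
    simp only [decide_eq_true_eq] at this
    unfold sv
    rw [this, GI.toC_conj, star_mul', Complex.star_def, Complex.conj_ofReal]
  rw [e]
  exact hf.md.star.trans (mul_le_mul_of_nonneg_left (by exact_mod_cast h2) (un_pos U).le)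

/-- `h` is a model of the rational `p / q` times `f`, rounding error `δ` (unit `2^-U / q`) -/
def chkScal (n δ : ℕ) (p : ℤ) (q : ℕ) (f h : MI) : Bool :=
  h.wf n && decide (p.natAbs * f.r + δ ≤ q * h.r) && decide (0 < q) &&
    allV n (fun v => small ((GI.scal p (f.at' v)).sub (GI.scal q (h.at' v))) δ)

theorem chkScal_ok {n U δ : ℕ} {w : Fin n → ℝ} (hw : Wts w) {a : ℂ} {p : ℤ} {q : ℕ} {f h : MI}
    (hf : ok U w a f) (hc : chkScal n δ p q f h = true) :
    ok U w ((p : ℂ) / (q : ℂ) * a) h := by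
  simp only [chkScal, Bool.and_eq_true, decide_eq_true_eq] at hc
  obtain ⟨⟨⟨h1, h2⟩, hq⟩, h3⟩ := hc
  refine ⟨h1, ?_⟩
  have hq' : (0 : ℝ) < q := by exact_mod_cast hq
  have hqc : (q : ℂ) ≠ 0 := by exact_mod_cast hq.ne'
  have h4 := hf.md.cmul ((p : ℂ) / (q : ℂ))
  have hn : ‖(p : ℂ) / (q : ℂ)‖ = (p.natAbs : ℝ) / q := by
    rw [norm_div, Complex.norm_intCast, Complex.norm_natCast, Nat.cast_natAbs, Int.cast_abs]
  rw [hn] at h4
  have h5 := h4.round hw (F' := fun v => sv U (h.at' v)) (δ := un U * δ / q) (by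
    intro v
    have h6 := small_le (allV_iff h3 v)
    rw [GI.toC_sub, GI.toC_scal, GI.toC_scal] at h6
    have e : (p : ℂ) / (q : ℂ) * sv U (f.at' v) - sv U (h.at' v)
        = ((un U / q : ℝ) : ℂ) * ((p : ℂ) * (f.at' v).toC - ((q : ℤ) : ℂ) * (h.at' v).toC) := by
      unfold sv
      push_cast
      field_simp
    rw [e, norm_mul, Complex.norm_real, Real.norm_of_nonneg (by have := un_pos U; positivity)]
    calc un U / q * ‖(p : ℂ) * (f.at' v).toC - ((q : ℤ) : ℂ) * (h.at' v).toC‖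
        ≤ un U / q * δ := mul_le_mul_of_nonneg_left h6 (by have := un_pos U; positivity)
      _ = un U * δ / q := by ring)
  refine h5.trans ?_
  have h7 : ((p.natAbs * f.r + δ : ℕ) : ℝ) ≤ ((q * h.r : ℕ) : ℝ) := by exact_mod_cast h2
  push_cast at h7
  have hu := un_pos U
  have e2 : (p.natAbs : ℝ) / q * (un U * f.r) + un U * δ / q
      = un U / q * (p.natAbs * f.r + δ) := by ring
  rw [e2]
  calc un U / q * (p.natAbs * f.r + δ) ≤ un U / q * (q * h.r) :=
        mul_le_mul_of_nonneg_left (by exact_mod_cast h7) (by positivity)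
    _ = un U * h.r := by field_simp

/-- `h` is a model of `f⁻¹`: `u` a direction, `μ` a lower bound of `Re (F conj u)` (unit `2^-2U`),
`m` a lower bound of `|f|` (unit `2^-U`), `δ` bounds `|F G - 1|` (unit `2^-2U`) -/
def chkInv (U n δ : ℕ) (u : GI) (m : ℕ) (f h : MI) : Bool :=
  h.wf n && decide (0 < m) && decide (u.nsq ≤ 2 ^ U * 2 ^ U) &&
    allV n (fun v => small (((f.at' v).mul (h.at' v)).sub ⟨2 ^ U * 2 ^ U, 0⟩) δ &&
      decide (((m : ℤ) + f.r) * 2 ^ U ≤ ((f.at' v).mul u.conj).re)) &&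
    decide (δ + f.ρ * h.ρ + f.r * h.B ≤ m * h.r)

theorem chkInv_ok {n U δ : ℕ} {w : Fin n → ℝ} (hw : Wts w) {a : ℂ} {u : GI} {m : ℕ} {f h : MI}
    (hf : ok U w a f) (hc : chkInv U n δ u m f h = true) : ok U w a⁻¹ h ∧ a ≠ 0 := by
  simp only [chkInv, Bool.and_eq_true, decide_eq_true_eq] at hc
  obtain ⟨⟨⟨⟨h1, hm⟩, hu⟩, h3⟩, h2⟩ := hc
  have hup := un_pos U
  have hmR : (0 : ℝ) < m := by exact_mod_cast hm
  have hun : ‖sv U u‖ ≤ 1 := by
    unfold sv
    rw [norm_mul, Complex.norm_real, Real.norm_of_nonneg hup.le]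
    have h4 : ‖u.toC‖ ≤ ((2 ^ U : ℕ) : ℝ) := GI.norm_le (by push_cast; exact hu)
    push_cast at h4
    calc un U * ‖u.toC‖ ≤ un U * 2 ^ U := mul_le_mul_of_nonneg_left h4 hup.le
      _ = 1 := un_sq U
  have hlow : un U * m ≤ ‖a‖ := by
    have h5 := Mod.lower hw (m := un U * (m + f.r)) hf.md hun (by
      intro v
      have h6 := allV_iff h3 v
      simp only [Bool.and_eq_true, decide_eq_true_eq] at h6
      have h7 : (((m : ℤ) + f.r) * 2 ^ U : ℝ) ≤ (((f.at' v).mul u.conj).re : ℝ) := by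
        exact_mod_cast h6.2
      have e : (sv U (f.at' v) * Star.star (sv U u)).re
          = un U * un U * ((f.at' v).mul u.conj).re := by
        have e1 : sv U (f.at' v) * Star.star (sv U u)
            = ((un U * un U : ℝ) : ℂ) * ((f.at' v).mul u.conj).toC := by
          unfold sv
          rw [GI.toC_mul, GI.toC_conj, star_mul', Complex.star_def, Complex.conj_ofReal]
          push_cast
          ring
        rw [e1, Complex.re_ofReal_mul]
        rfl
      rw [e]
      have h8 := mul_le_mul_of_nonneg_left h7 (by positivity : 0 ≤ un U * un U)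
      refine le_trans (le_of_eq ?_) h8
      have := un_sq U
      push_cast
      calc un U * (↑m + ↑f.r) = (un U * 2 ^ U) * (un U * (↑m + ↑f.r)) := by rw [this, one_mul]
        _ = un U * un U * ((↑m + ↑f.r) * 2 ^ U) := by ring)
    have e2 : un U * (m + f.r) - un U * f.r = un U * m := by ring
    linarith
  have ha : a ≠ 0 := by
    rintro rfl
    rw [norm_zero] at hlow
    have : 0 < un U * (m : ℝ) := by positivity
    linarith
  refine ⟨⟨h1, ?_⟩, ha⟩
  have hfr := hf.toMR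
  obtain ⟨cf, _, hcf⟩ := hfr.ds
  have hgd : ∀ v : Fin n, ‖sv U (h.at' v) - sv U h.c‖ ≤ un U * h.ρ := by
    intro v
    unfold sv
    rw [← mul_sub, ← GI.toC_sub, norm_mul, Complex.norm_real, Real.norm_of_nonneg hup.le]
    exact mul_le_mul_of_nonneg_left (GI.norm_le (wf_vert h1 v).2) hup.le
  have hgB : ∀ v : Fin n, ‖sv U (h.at' v)‖ ≤ un U * h.B := by
    intro v
    unfold sv
    rw [norm_mul, Complex.norm_real, Real.norm_of_nonneg hup.le]
    exact mul_le_mul_of_nonneg_left (GI.norm_le (wf_vert h1 v).1) hup.le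
  have h9 := Mod.inv hw (δ := un U * un U * δ) (m := un U * m) hf.md (by
    intro v
    have h6 := allV_iff h3 v
    simp only [Bool.and_eq_true, decide_eq_true_eq] at h6
    have h7 := small_le h6.1
    rw [GI.toC_sub, GI.toC_mul] at h7
    have e0 : (⟨2 ^ U * 2 ^ U, 0⟩ : GI).toC = (2 : ℂ) ^ U * 2 ^ U := by
      apply Complex.ext
      · simp only [GI.toC]
        rw [show ((2 : ℂ) ^ U * 2 ^ U) = (((2 : ℝ) ^ U * 2 ^ U : ℝ) : ℂ) by push_cast; ring,
          Complex.ofReal_re]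
        push_cast; ring
      · simp only [GI.toC]
        rw [show ((2 : ℂ) ^ U * 2 ^ U) = (((2 : ℝ) ^ U * 2 ^ U : ℝ) : ℂ) by push_cast; ring,
          Complex.ofReal_im]
        push_cast; ring
    rw [e0] at h7
    have e : sv U (f.at' v) * sv U (h.at' v) - 1
        = ((un U * un U : ℝ) : ℂ) * ((f.at' v).toC * (h.at' v).toC - (2 : ℂ) ^ U * 2 ^ U) := by
      have h8 : ((un U : ℝ) : ℂ) * ((2 : ℂ) ^ U) = 1 := by exact_mod_cast un_sq U
      unfold sv
      push_cast
      linear_combination (((un U : ℝ) : ℂ) * (2 : ℂ) ^ U + 1) * h8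
    rw [e, norm_mul, Complex.norm_real, Real.norm_of_nonneg (by positivity)]
    exact mul_le_mul_of_nonneg_left h7 (by positivity)) hgB (fun v => hcf v) hgd
    (by positivity) hlow
  refine h9.trans ?_
  rw [div_le_iff₀ (by positivity)]
  have h10 : ((δ + f.ρ * h.ρ + f.r * h.B : ℕ) : ℝ) ≤ ((m * h.r : ℕ) : ℝ) := by exact_mod_cast h2
  push_cast at h10
  have h11 := mul_le_mul_of_nonneg_left h10 (by positivity : 0 ≤ un U * un U)
  simp only [MI.toMR]
  calc un U * un U * ↑δ + un U * ↑f.ρ * (un U * ↑h.ρ) + un U * ↑f.r * (un U * ↑h.B)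
      = un U * un U * (↑δ + ↑f.ρ * ↑h.ρ + ↑f.r * ↑h.B) := by ring
    _ ≤ un U * un U * (↑m * ↑h.r) := h11
    _ = un U * ↑h.r * (un U * ↑m) := by ring

/-- `h` is a model of the root `z` of `z + 1/z = x` in the upper half plane; `m` a lower bound of
the imaginary parts -/
def chkZ (U n δ m : ℕ) (x h : MI) : Bool :=
  h.wf n && decide (0 < m) &&
    allV n (fun v => small (((((h.at' v).sub (x.at' v)).mul (h.at' v))).add
        ⟨2 ^ U * 2 ^ U, 0⟩) δ && decide ((m : ℤ) ≤ (h.at' v).im)) &&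
    decide (δ + h.ρ * h.ρ + x.ρ * h.ρ + x.r * h.B ≤ m * h.r)

theorem chkZ_ok {n U δ : ℕ} {w : Fin n → ℝ} (hw : Wts w) {z x : ℂ} {m : ℕ} {f h : MI}
    (hf : ok U w x f) (hc : chkZ U n δ m f h = true) (hz : z ≠ 0) (hx : z + z⁻¹ = x)
    (hi : 0 ≤ z.im) : ok U w z h := by
  simp only [chkZ, Bool.and_eq_true, decide_eq_true_eq] at hc
  obtain ⟨⟨⟨h1, hm⟩, h3⟩, h2⟩ := hc
  have hup := un_pos U
  have hmR : (0 : ℝ) < m := by exact_mod_cast hm
  refine ⟨h1, ?_⟩
  have hfr := hf.toMR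
  obtain ⟨cf, _, hcf⟩ := hfr.ds
  have hgd : ∀ v : Fin n, ‖sv U (h.at' v) - sv U h.c‖ ≤ un U * h.ρ := by
    intro v
    unfold sv
    rw [← mul_sub, ← GI.toC_sub, norm_mul, Complex.norm_real, Real.norm_of_nonneg hup.le]
    exact mul_le_mul_of_nonneg_left (GI.norm_le (wf_vert h1 v).2) hup.le
  have hgB : ∀ v : Fin n, ‖sv U (h.at' v)‖ ≤ un U * h.B := by
    intro v
    unfold sv
    rw [norm_mul, Complex.norm_real, Real.norm_of_nonneg hup.le]
    exact mul_le_mul_of_nonneg_left (GI.norm_le (wf_vert h1 v).1) hup.le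
  have h9 := Mod.z hw hz hx hi (m := un U * m) (δ := un U * un U * δ) hf.md (by positivity) (by
    intro v
    have h6 := allV_iff h3 v
    simp only [Bool.and_eq_true, decide_eq_true_eq] at h6
    have h7 : ((m : ℤ) : ℝ) ≤ ((h.at' v).im : ℝ) := by exact_mod_cast h6.2
    show un U * m ≤ (sv U (h.at' v)).im
    unfold sv
    rw [Complex.im_ofReal_mul]
    refine mul_le_mul_of_nonneg_left ?_ hup.le
    show (m : ℝ) ≤ ((h.at' v).im : ℝ)
    exact_mod_cast h6.2) (by
    intro v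
    have h6 := allV_iff h3 v
    simp only [Bool.and_eq_true, decide_eq_true_eq] at h6
    have h7 := small_le h6.1
    rw [GI.toC_add, GI.toC_mul, GI.toC_sub] at h7
    have e0 : (⟨2 ^ U * 2 ^ U, 0⟩ : GI).toC = (2 : ℂ) ^ U * 2 ^ U := by
      apply Complex.ext
      · simp only [GI.toC]
        rw [show ((2 : ℂ) ^ U * 2 ^ U) = (((2 : ℝ) ^ U * 2 ^ U : ℝ) : ℂ) by push_cast; ring,
          Complex.ofReal_re]
        push_cast; ring
      · simp only [GI.toC]
        rw [show ((2 : ℂ) ^ U * 2 ^ U) = (((2 : ℝ) ^ U * 2 ^ U : ℝ) : ℂ) by push_cast; ring,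
          Complex.ofReal_im]
        push_cast; ring
    rw [e0] at h7
    have e : sv U (h.at' v) ^ 2 - sv U (f.at' v) * sv U (h.at' v) + 1
        = ((un U * un U : ℝ) : ℂ) * (((h.at' v).toC - (f.at' v).toC) * (h.at' v).toC
          + (2 : ℂ) ^ U * 2 ^ U) := by
      have h8 : ((un U : ℝ) : ℂ) * ((2 : ℂ) ^ U) = 1 := by exact_mod_cast un_sq U
      unfold sv
      push_cast
      linear_combination (-(((un U : ℝ) : ℂ) * (2 : ℂ) ^ U) - 1) * h8
    rw [e, norm_mul, Complex.norm_real, Real.norm_of_nonneg (by positivity)]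
    exact mul_le_mul_of_nonneg_left h7 (by positivity)) hgB hgd (fun v => hcf v)
  refine h9.trans ?_
  rw [div_le_iff₀ (by positivity)]
  have h10 : ((δ + h.ρ * h.ρ + f.ρ * h.ρ + f.r * h.B : ℕ) : ℝ) ≤ ((m * h.r : ℕ) : ℝ) := by
    exact_mod_cast h2
  push_cast at h10
  have h11 := mul_le_mul_of_nonneg_left h10 (by positivity : 0 ≤ un U * un U)
  simp only [MI.toMR]
  calc un U * un U * ↑δ + un U * ↑h.ρ * (un U * ↑h.ρ) + un U * ↑f.ρ * (un U * ↑h.ρ)
        + un U * ↑f.r * (un U * ↑h.B)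
      = un U * un U * (↑δ + ↑h.ρ * ↑h.ρ + ↑f.ρ * ↑h.ρ + ↑f.r * ↑h.B) := by ring
    _ ≤ un U * un U * (↑m * ↑h.r) := h11
    _ = un U * ↑h.r * (un U * ↑m) := by ring

/-- constants -/
def const (n : ℕ) (a : GI) (r B : ℕ) : MI := ⟨List.replicate n a, a, r, B, 0⟩

theorem const_ok {n U : ℕ} {w : Fin n → ℝ} (hw : Wts w) {f : ℂ} {a : GI} {r B : ℕ}
    (hB : a.nsq ≤ (B : ℤ) * B) (h : ‖f - sv U a‖ ≤ un U * r) : ok U w f (const n a r B) := by
  have hs : (a.sub a).nsq ≤ ((0 : ℕ) : ℤ) * (0 : ℕ) := by simp [GI.sub, GI.nsq]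
  refine ⟨?_, ?_⟩
  · simp only [wf, const, Bool.and_eq_true, List.all_eq_true,
      List.length_replicate, Nat.beq_refl]
    refine ⟨⟨trivial, decide_eq_true hB⟩, fun x hx => ?_⟩
    rw [List.eq_of_mem_replicate hx]
    exact ⟨decide_eq_true hB, decide_eq_true hs⟩
  · have e : (fun v : Fin n => sv U ((const n a r B).at' v)) = fun _ : Fin n => sv U a := by
      funext v
      unfold at' const
      rw [List.getD_eq_getElem _ _ (by simp), List.getElem_replicate]
    rw [e]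
    show ‖f - avg w (fun _ => sv U a)‖ ≤ un U * r
    rw [avg_const hw]
    exact h

end MI

end Pool.Agent.Helper90.C75
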