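import Pool.Agent.C75W.Im

/-!
MP_c75db0, format (F3): models of functions on a cell. At every parameter point there are convex
weights `w v` (the same for all functions); a model of `f` is a family of vertex values `F v` and a
radius `r` with `‖f - ∑ w v F v‖ ≤ r`.
-/

set_option autoImplicit false

namespace Pool.Agent.Helper90.C75

open Finset

variable {V : Type*} [Fintype V]

/-- convex weights -/
structure Wts (w : V → ℝ) : Prop where
  nonneg : ∀ v, 0 ≤ w v
  sum : ∑ v, w v = 1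

/-- the interpolation -/
noncomputable def avg (w : V → ℝ) (F : V → ℂ) : ℂ := ∑ v, (w v : ℂ) * F v

theorem avg_add (w : V → ℝ) (F G : V → ℂ) : avg w (fun v => F v + G v) = avg w F + avg w G := by
  simp [avg, mul_add, Finset.sum_add_distrib]

theorem avg_sub (w : V → ℝ) (F G : V → ℂ) : avg w (fun v => F v - G v) = avg w F - avg w G := by
  simp [avg, mul_sub, Finset.sum_sub_distrib]

theorem avg_smul (w : V → ℝ) (c : ℂ) (F : V → ℂ) : avg w (fun v => c * F v) = c * avg w F := by
  simp only [avg, Finset.mul_sum]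
  exact Finset.sum_congr rfl fun v _ => by ring

theorem avg_const {w : V → ℝ} (hw : Wts w) (c : ℂ) : avg w (fun _ => c) = c := by
  simp only [avg, ← Finset.sum_mul]
  rw [← Complex.ofReal_sum, hw.sum, Complex.ofReal_one, one_mul]

theorem avg_star (w : V → ℝ) (F : V → ℂ) : avg w (fun v => star (F v)) = star (avg w F) := by
  simp [avg]

theorem norm_avg_le {w : V → ℝ} (hw : Wts w) {F : V → ℂ} {B : ℝ} (hF : ∀ v, ‖F v‖ ≤ B) :
    ‖avg w F‖ ≤ B := by
  calc ‖avg w F‖ ≤ ∑ v, ‖(w v : ℂ) * F v‖ := norm_sum_le _ _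
    _ ≤ ∑ v, w v * B := by
        apply Finset.sum_le_sum
        intro v _
        rw [norm_mul, Complex.norm_real, Real.norm_of_nonneg (hw.nonneg v)]
        exact mul_le_mul_of_nonneg_left (hF v) (hw.nonneg v)
    _ = B := by rw [← Finset.sum_mul, hw.sum, one_mul]

theorem dist_avg_le {w : V → ℝ} (hw : Wts w) {F : V → ℂ} {c : ℂ} {B : ℝ}
    (hF : ∀ v, ‖F v - c‖ ≤ B) : ‖avg w F - c‖ ≤ B := by
  have h : avg w F - c = avg w (fun v => F v - c) := by rw [avg_sub, avg_const hw]
  rw [h]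
  exact norm_avg_le hw hF

/-- COVARIANCE INEQUALITY -/
theorem cov_le {w : V → ℝ} (hw : Wts w) {F G : V → ℂ} {cF cG : ℂ} {rF rG : ℝ}
    (hF : ∀ v, ‖F v - cF‖ ≤ rF) (hG : ∀ v, ‖G v - cG‖ ≤ rG) :
    ‖avg w (fun v => F v * G v) - avg w F * avg w G‖ ≤ rF * rG := by
  have hne : Nonempty V := by
    by_contra h
    rw [not_nonempty_iff] at h
    have := hw.sum
    simp at this
  obtain ⟨v₀⟩ := hne
  have hrF : 0 ≤ rF := (norm_nonneg _).trans (hF v₀)
  have hrG : 0 ≤ rG := (norm_nonneg _).trans (hG v₀)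
  set b := avg w G with hb
  -- the covariance with centred first factor
  have e1 : avg w (fun v => F v * G v) - avg w F * b = avg w (fun v => (F v - cF) * (G v - b)) := by
    have : (fun v => (F v - cF) * (G v - b))
        = fun v => (F v * G v - b * F v) - (cF * G v - cF * b) := by
      funext v; ring
    rw [this, avg_sub, avg_sub, avg_sub, avg_smul, avg_smul, avg_const hw, ← hb]
    ring
  rw [e1]
  have h1 : ‖avg w (fun v => (F v - cF) * (G v - b))‖ ≤ ∑ v, w v * (rF * ‖G v - b‖) := by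
    refine (norm_sum_le _ _).trans (Finset.sum_le_sum fun v _ => ?_)
    rw [norm_mul, norm_mul, Complex.norm_real, Real.norm_of_nonneg (hw.nonneg v)]
    exact mul_le_mul_of_nonneg_left (mul_le_mul_of_nonneg_right (hF v) (norm_nonneg _))
      (hw.nonneg v)
  -- variance
  have hvar : ∑ v, w v * ‖G v - b‖ ^ 2 ≤ rG ^ 2 := by
    have e2 : ∀ v, ‖G v - b‖ ^ 2
        = ‖G v - cG‖ ^ 2 - 2 * ((G v - cG) * star (b - cG)).re + ‖b - cG‖ ^ 2 := by
      intro v
      have : G v - b = (G v - cG) - (b - cG) := by ring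
      rw [this]
      simp only [← Complex.normSq_eq_norm_sq, Complex.normSq_apply, Complex.sub_re,
        Complex.sub_im, Complex.mul_re, Complex.star_def, Complex.conj_re, Complex.conj_im]
      ring
    have e3 : ∑ v, w v * ((G v - cG) * star (b - cG)).re = ‖b - cG‖ ^ 2 := by
      have h3 : b - cG = ∑ v, (w v : ℂ) * (G v - cG) := by
        rw [hb]
        have := avg_sub w G (fun _ => cG)
        rw [avg_const hw] at this
        rw [← this]
        rfl
      have h4 : ∑ v, w v * ((G v - cG) * star (b - cG)).re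
          = ((∑ v, (w v : ℂ) * (G v - cG)) * star (b - cG)).re := by
        rw [Finset.sum_mul, Complex.re_sum]
        apply Finset.sum_congr rfl
        intro v _
        rw [mul_assoc, Complex.re_ofReal_mul]
      rw [h4, ← h3, Complex.star_def, Complex.mul_conj, Complex.ofReal_re,
        Complex.normSq_eq_norm_sq]
    calc ∑ v, w v * ‖G v - b‖ ^ 2
        = ∑ v, (w v * ‖G v - cG‖ ^ 2 - 2 * (w v * ((G v - cG) * star (b - cG)).re)
            + w v * ‖b - cG‖ ^ 2) := by
          apply Finset.sum_congr rfl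
          intro v _
          rw [e2]; ring
      _ = ∑ v, w v * ‖G v - cG‖ ^ 2 - 2 * ‖b - cG‖ ^ 2 + ‖b - cG‖ ^ 2 := by
          rw [Finset.sum_add_distrib, Finset.sum_sub_distrib, ← Finset.mul_sum, e3,
            ← Finset.sum_mul, hw.sum, one_mul]
      _ ≤ ∑ v, w v * ‖G v - cG‖ ^ 2 := by
          have := sq_nonneg ‖b - cG‖
          linarith
      _ ≤ ∑ v, w v * rG ^ 2 := by
          apply Finset.sum_le_sum
          intro v _
          apply mul_le_mul_of_nonneg_left _ (hw.nonneg v)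
          have := hG v
          have h0 := norm_nonneg (G v - cG)
          nlinarith
      _ = rG ^ 2 := by rw [← Finset.sum_mul, hw.sum, one_mul]
  -- Jensen
  have hJ : (∑ v, w v * ‖G v - b‖) ^ 2 ≤ ∑ v, w v * ‖G v - b‖ ^ 2 := by
    set m := ∑ v, w v * ‖G v - b‖ with hm
    have h5 : 0 ≤ ∑ v, w v * (‖G v - b‖ - m) ^ 2 :=
      Finset.sum_nonneg fun v _ => mul_nonneg (hw.nonneg v) (sq_nonneg _)
    have h6 : ∑ v, w v * (‖G v - b‖ - m) ^ 2
        = ∑ v, w v * ‖G v - b‖ ^ 2 - 2 * m * m + m ^ 2 := by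
      calc ∑ v, w v * (‖G v - b‖ - m) ^ 2
          = ∑ v, (w v * ‖G v - b‖ ^ 2 - 2 * m * (w v * ‖G v - b‖) + w v * m ^ 2) := by
            apply Finset.sum_congr rfl
            intro v _
            ring
        _ = _ := by
            rw [Finset.sum_add_distrib, Finset.sum_sub_distrib, ← Finset.mul_sum,
              ← Finset.sum_mul, hw.sum, ← hm, one_mul]
    nlinarith
  have h7 : ∑ v, w v * ‖G v - b‖ ≤ rG := by
    have h8 : 0 ≤ ∑ v, w v * ‖G v - b‖ :=
      Finset.sum_nonneg fun v _ => mul_nonneg (hw.nonneg v) (norm_nonneg _)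
    nlinarith
  calc ‖avg w (fun v => (F v - cF) * (G v - b))‖ ≤ ∑ v, w v * (rF * ‖G v - b‖) := h1
    _ = rF * ∑ v, w v * ‖G v - b‖ := by
        rw [Finset.mul_sum]
        exact Finset.sum_congr rfl fun v _ => by ring
    _ ≤ rF * rG := mul_le_mul_of_nonneg_left h7 hrF

/-- a model at one parameter point -/
def Mod (w : V → ℝ) (f : ℂ) (F : V → ℂ) (r : ℝ) : Prop := ‖f - avg w F‖ ≤ r

theorem Mod.add {w : V → ℝ} {f g : ℂ} {F G : V → ℂ} {r s : ℝ} (hf : Mod w f F r)
    (hg : Mod w g G s) : Mod w (f + g) (fun v => F v + G v) (r + s) := by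
  unfold Mod at *
  rw [avg_add]
  calc ‖f + g - (avg w F + avg w G)‖ = ‖(f - avg w F) + (g - avg w G)‖ := by congr 1; ring
    _ ≤ r + s := (norm_add_le _ _).trans (add_le_add hf hg)

theorem Mod.sub {w : V → ℝ} {f g : ℂ} {F G : V → ℂ} {r s : ℝ} (hf : Mod w f F r)
    (hg : Mod w g G s) : Mod w (f - g) (fun v => F v - G v) (r + s) := by
  unfold Mod at *
  rw [avg_sub]
  calc ‖f - g - (avg w F - avg w G)‖ = ‖(f - avg w F) - (g - avg w G)‖ := by congr 1; ring
    _ ≤ r + s := (norm_sub_le _ _).trans (add_le_add hf hg)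

theorem Mod.star {w : V → ℝ} {f : ℂ} {F : V → ℂ} {r : ℝ} (hf : Mod w f F r) :
    Mod w (star f) (fun v => star (F v)) r := by
  unfold Mod at *
  rw [avg_star, ← star_sub, norm_star]
  exact hf

theorem Mod.const {w : V → ℝ} (hw : Wts w) (c : ℂ) : Mod w c (fun _ => c) 0 := by
  unfold Mod
  rw [avg_const hw, sub_self, norm_zero]

theorem Mod.cmul {w : V → ℝ} {f : ℂ} {F : V → ℂ} {r : ℝ} (c : ℂ) (hf : Mod w f F r) :
    Mod w (c * f) (fun v => c * F v) (‖c‖ * r) := by
  unfold Mod at *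
  rw [avg_smul, ← mul_sub, norm_mul]
  exact mul_le_mul_of_nonneg_left hf (norm_nonneg c)

/-- rounding of the vertex values -/
theorem Mod.round {w : V → ℝ} (hw : Wts w) {f : ℂ} {F F' : V → ℂ} {r δ : ℝ} (hf : Mod w f F r)
    (h : ∀ v, ‖F v - F' v‖ ≤ δ) : Mod w f F' (r + δ) := by
  unfold Mod at *
  have h1 : ‖avg w F - avg w F'‖ ≤ δ := by
    rw [← avg_sub]
    exact norm_avg_le hw h
  calc ‖f - avg w F'‖ = ‖(f - avg w F) + (avg w F - avg w F')‖ := by congr 1; ring
    _ ≤ r + δ := (norm_add_le _ _).trans (add_le_add hf h1)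

/-- PRODUCT: vertexwise, radius `r BG + s BF + r s + ρF ρG` -/
theorem Mod.mul {w : V → ℝ} (hw : Wts w) {f g : ℂ} {F G : V → ℂ} {r s BF BG ρF ρG : ℝ} {cF cG : ℂ}
    (hf : Mod w f F r) (hg : Mod w g G s) (hBF : ∀ v, ‖F v‖ ≤ BF) (hBG : ∀ v, ‖G v‖ ≤ BG)
    (hF : ∀ v, ‖F v - cF‖ ≤ ρF) (hG : ∀ v, ‖G v - cG‖ ≤ ρG) :
    Mod w (f * g) (fun v => F v * G v) (r * BG + s * BF + r * s + ρF * ρG) := by
  unfold Mod at *
  have hr : 0 ≤ r := (norm_nonneg _).trans hf
  have h1 := cov_le hw hF hG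
  have hF' := norm_avg_le hw hBF
  have hG' := norm_avg_le hw hBG
  have e : f * g - avg w (fun v => F v * G v)
      = (f - avg w F) * avg w G + (g - avg w G) * avg w F + (f - avg w F) * (g - avg w G)
        - (avg w (fun v => F v * G v) - avg w F * avg w G) := by ring
  rw [e]
  refine (norm_sub_le _ _).trans (add_le_add ((norm_add_le _ _).trans (add_le_add
    ((norm_add_le _ _).trans (add_le_add ?_ ?_)) ?_)) h1)
  · rw [norm_mul]; exact mul_le_mul hf hG' (norm_nonneg _) hr
  · rw [norm_mul]; exact mul_le_mul hg hF' (norm_nonneg _) ((norm_nonneg _).trans hg)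
  · rw [norm_mul]; exact mul_le_mul hf hg (norm_nonneg _) hr

end Pool.Agent.Helper90.C75
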