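import Pool.Agent.Helper90.C75.Cell

/-!
MP_c75db0, format (F3)/(F5): an algebra of models with bounds, and the model of `P = Cᴴ K' C`.
-/

set_option autoImplicit false

namespace Pool.Agent.Helper90.C75

open Finset

variable {V : Type*} [Fintype V]

/-- a model with bounds: vertex values, radius, bound and disc radius of the vertex values -/
structure MR (V : Type*) where
  F : V → ℂ
  r : ℝ
  B : ℝ
  ρ : ℝ

/-- `m` is a model of `f` at the parameter point with weights `w` -/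
structure MR.ok (w : V → ℝ) (f : ℂ) (m : MR V) : Prop where
  md : Mod w f m.F m.r
  bd : ∀ v, ‖m.F v‖ ≤ m.B
  ds : ∃ c, ‖c‖ ≤ m.B ∧ ∀ v, ‖m.F v - c‖ ≤ m.ρ

def MR.add (m n : MR V) : MR V :=
  ⟨fun v => m.F v + n.F v, m.r + n.r, m.B + n.B, m.ρ + n.ρ⟩

def MR.sub (m n : MR V) : MR V :=
  ⟨fun v => m.F v - n.F v, m.r + n.r, m.B + n.B, m.ρ + n.ρ⟩

noncomputable def MR.star (m : MR V) : MR V := ⟨fun v => Star.star (m.F v), m.r, m.B, m.ρ⟩

noncomputable def MR.mul (m n : MR V) : MR V :=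
  ⟨fun v => m.F v * n.F v, m.r * n.B + n.r * m.B + m.r * n.r + m.ρ * n.ρ, m.B * n.B,
    m.ρ * n.B + m.B * n.ρ⟩

/-- multiplication by an exact constant -/
noncomputable def MR.cmul (c : ℂ) (m : MR V) : MR V :=
  ⟨fun v => c * m.F v, ‖c‖ * m.r, ‖c‖ * m.B, ‖c‖ * m.ρ⟩

/-- an exact interpolated function -/
noncomputable def MR.exact (F : V → ℂ) (B ρ : ℝ) : MR V := ⟨F, 0, B, ρ⟩

theorem MR.ok.add {w : V → ℝ} {f g : ℂ} {m n : MR V} (hm : MR.ok w f m)
    (hn : MR.ok w g n) : MR.ok w (f + g) (m.add n) := by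
  obtain ⟨c, hc, hc'⟩ := hm.ds
  obtain ⟨d, hd, hd'⟩ := hn.ds
  refine ⟨hm.md.add hn.md, fun v => (norm_add_le _ _).trans (add_le_add (hm.bd v) (hn.bd v)),
    c + d, (norm_add_le _ _).trans (add_le_add hc hd), fun v => ?_⟩
  have : m.F v + n.F v - (c + d) = (m.F v - c) + (n.F v - d) := by ring
  show ‖m.F v + n.F v - (c + d)‖ ≤ _
  rw [this]
  exact (norm_add_le _ _).trans (add_le_add (hc' v) (hd' v))

theorem MR.ok.sub {w : V → ℝ} {f g : ℂ} {m n : MR V} (hm : MR.ok w f m)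
    (hn : MR.ok w g n) : MR.ok w (f - g) (m.sub n) := by
  obtain ⟨c, hc, hc'⟩ := hm.ds
  obtain ⟨d, hd, hd'⟩ := hn.ds
  refine ⟨hm.md.sub hn.md, fun v => (norm_sub_le _ _).trans (add_le_add (hm.bd v) (hn.bd v)),
    c - d, (norm_sub_le _ _).trans (add_le_add hc hd), fun v => ?_⟩
  have : m.F v - n.F v - (c - d) = (m.F v - c) - (n.F v - d) := by ring
  show ‖m.F v - n.F v - (c - d)‖ ≤ _
  rw [this]
  exact (norm_sub_le _ _).trans (add_le_add (hc' v) (hd' v))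

theorem MR.ok.star {w : V → ℝ} {f : ℂ} {m : MR V} (hm : MR.ok w f m) :
    MR.ok w (Star.star f) m.star := by
  obtain ⟨c, hc, hc'⟩ := hm.ds
  refine ⟨hm.md.star, fun v => ?_, Star.star c, by rw [norm_star]; exact hc, fun v => ?_⟩
  · show ‖Star.star (m.F v)‖ ≤ m.B
    rw [norm_star]; exact hm.bd v
  · show ‖Star.star (m.F v) - Star.star c‖ ≤ m.ρ
    rw [← star_sub, norm_star]; exact hc' v

theorem MR.ok.mul {w : V → ℝ} (hw : Wts w) {f g : ℂ} {m n : MR V} (hm : MR.ok w f m)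
    (hn : MR.ok w g n) : MR.ok w (f * g) (m.mul n) := by
  obtain ⟨c, hc, hc'⟩ := hm.ds
  obtain ⟨d, hd, hd'⟩ := hn.ds
  have hB : 0 ≤ m.B := (norm_nonneg _).trans hc
  have hB' : 0 ≤ n.B := (norm_nonneg _).trans hd
  refine ⟨Mod.mul hw hm.md hn.md hm.bd hn.bd hc' hd', fun v => ?_, c * d, ?_, fun v => ?_⟩
  · show ‖m.F v * n.F v‖ ≤ m.B * n.B
    rw [norm_mul]
    exact mul_le_mul (hm.bd v) (hn.bd v) (norm_nonneg _) hB
  · show ‖c * d‖ ≤ m.B * n.B
    rw [norm_mul]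
    exact mul_le_mul hc hd (norm_nonneg _) hB
  · show ‖m.F v * n.F v - c * d‖ ≤ m.ρ * n.B + m.B * n.ρ
    have e : m.F v * n.F v - c * d = (m.F v - c) * n.F v + c * (n.F v - d) := by ring
    rw [e]
    refine (norm_add_le _ _).trans (add_le_add ?_ ?_)
    · rw [norm_mul]
      exact mul_le_mul (hc' v) (hn.bd v) (norm_nonneg _) ((norm_nonneg _).trans (hc' v))
    · rw [norm_mul]
      exact mul_le_mul hc (hd' v) (norm_nonneg _) hB

theorem MR.ok.cmul {w : V → ℝ} {f : ℂ} {m : MR V} (c : ℂ) (hm : MR.ok w f m) :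
    MR.ok w (c * f) (m.cmul c) := by
  obtain ⟨d, hd, hd'⟩ := hm.ds
  refine ⟨hm.md.cmul c, fun v => ?_, c * d, ?_, fun v => ?_⟩
  · show ‖c * m.F v‖ ≤ ‖c‖ * m.B
    rw [norm_mul]; exact mul_le_mul_of_nonneg_left (hm.bd v) (norm_nonneg _)
  · show ‖c * d‖ ≤ ‖c‖ * m.B
    rw [norm_mul]; exact mul_le_mul_of_nonneg_left hd (norm_nonneg _)
  · show ‖c * m.F v - c * d‖ ≤ ‖c‖ * m.ρ
    rw [← mul_sub, norm_mul]; exact mul_le_mul_of_nonneg_left (hd' v) (norm_nonneg _)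

theorem MR.ok.exact {w : V → ℝ} {F : V → ℂ} {B ρ : ℝ} (hB : ∀ v, ‖F v‖ ≤ B)
    (hρ : ∃ c, ‖c‖ ≤ B ∧ ∀ v, ‖F v - c‖ ≤ ρ) : MR.ok w (avg w F) (MR.exact F B ρ) :=
  ⟨by show ‖avg w F - avg w F‖ ≤ 0; rw [sub_self, norm_zero], hB, hρ⟩

/-- a constant, known up to `δ` -/
theorem MR.ok.const {w : V → ℝ} (hw : Wts w) {c c' : ℂ} {δ : ℝ} (h : ‖c - c'‖ ≤ δ) :
    MR.ok w c ⟨fun _ => c', δ, ‖c'‖, 0⟩ := by
  refine ⟨?_, fun _ => le_rfl, c', le_rfl, fun _ => by simp⟩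
  show ‖c - avg w (fun _ => c')‖ ≤ δ
  rw [avg_const hw]
  exact h

/-- enlarging the bounds and rounding the vertex values -/
theorem MR.ok.mono {w : V → ℝ} (hw : Wts w) {f : ℂ} {m m' : MR V} (hm : MR.ok w f m) {δ : ℝ}
    (hF : ∀ v, ‖m.F v - m'.F v‖ ≤ δ) (hr : m.r + δ ≤ m'.r) (hB : m.B + δ ≤ m'.B)
    (hρ : m.ρ + δ ≤ m'.ρ) (hδ : 0 ≤ δ) : MR.ok w f m' := by
  obtain ⟨c, hc, hc'⟩ := hm.ds
  refine ⟨(hm.md.round hw hF).trans hr, fun v => ?_, c, by linarith, fun v => ?_⟩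
  · calc ‖m'.F v‖ = ‖m.F v - (m.F v - m'.F v)‖ := by congr 1; ring
      _ ≤ m.B + δ := (norm_sub_le _ _).trans (add_le_add (hm.bd v) (hF v))
      _ ≤ m'.B := hB
  · calc ‖m'.F v - c‖ = ‖(m.F v - c) - (m.F v - m'.F v)‖ := by congr 1; ring
      _ ≤ m.ρ + δ := (norm_sub_le _ _).trans (add_le_add (hc' v) (hF v))
      _ ≤ m'.ρ := hρ

/-! ### the change of star -/

/-- `C v = (v₀ + e v₂, c₁ v₁, c₂ v₂)` -/
noncomputable def Cv (e c1 c2 : ℂ) (v : Fin 3 → ℂ) : Fin 3 → ℂ :=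
  ![v 0 + e * v 2, c1 * v 1, c2 * v 2]

/-- `P = Cᴴ K C` for a Hermitian `K` with upper entries `K00, K11, K22, K01, K02, K12` -/
noncomputable def Pm (K : M3) (e c1 c2 : ℂ) : M3 :=
  ![![K 0 0, K 0 1 * c1, K 0 0 * e + K 0 2 * c2],
    ![star (K 0 1 * c1), star c1 * c1 * K 1 1, star c1 * (star (K 0 1) * e + K 1 2 * c2)],
    ![star (K 0 0 * e + K 0 2 * c2), star (star c1 * (star (K 0 1) * e + K 1 2 * c2)),
      star e * e * K 0 0 + (star e * c2 * K 0 2 + star (star e * c2 * K 0 2)) +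
        star c2 * c2 * K 2 2]]

/-- Hermitian matrices -/
def Herm (K : M3) : Prop := ∀ i j, K j i = star (K i j)

theorem qf_Pm {K : M3} (hK : Herm K) (e c1 c2 : ℂ) (v : Fin 3 → ℂ) :
    qf (Pm K e c1 c2) v = qf K (Cv e c1 c2 v) := by
  have h10 : K 1 0 = star (K 0 1) := hK 0 1
  have h20 : K 2 0 = star (K 0 2) := hK 0 2
  have h21 : K 2 1 = star (K 1 2) := hK 1 2
  have h00 : star (K 0 0) = K 0 0 := (hK 0 0).symm
  simp only [qf, Pm, Cv, Fin.sum_univ_three, Matrix.cons_val_zero, Matrix.cons_val_one,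
    Matrix.cons_val, h10, h20, h21]
  congr 1
  simp only [star_add, star_mul', star_star, h00]
  ring

/-- the radii of `Pm` -/
noncomputable def Prad (K00 K01 K02 K11 K12 K22 e c1 c2 : MR V) : Fin 3 → Fin 3 → ℝ :=
  let r01 := (K01.mul c1).r
  let r02 := ((K00.mul e).add (K02.mul c2)).r
  let r11 := ((c1.star.mul c1).mul K11).r
  let r12 := (c1.star.mul ((K01.star.mul e).add (K12.mul c2))).r
  let t := (e.star.mul c2).mul K02
  let r22 := ((((e.star.mul e).mul K00).add (t.add t.star)).add ((c2.star.mul c2).mul K22)).r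
  ![![K00.r, r01, r02], ![r01, r11, r12], ![r02, r12, r22]]

omit [Fintype V] in
theorem Prad_symm (K00 K01 K02 K11 K12 K22 e c1 c2 : MR V) (i j : Fin 3) :
    Prad K00 K01 K02 K11 K12 K22 e c1 c2 i j = Prad K00 K01 K02 K11 K12 K22 e c1 c2 j i := by
  fin_cases i <;> fin_cases j <;> rfl

/-- MODEL OF `P` -/
theorem Pm_mod {w : V → ℝ} (hw : Wts w) {K : V → M3} {K00 K01 K02 K11 K12 K22 me m1 m2 : MR V}
    (h00 : MR.ok w (avg w (fun v => K v 0 0)) K00) (e00 : K00.F = fun v => K v 0 0)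
    (h01 : MR.ok w (avg w (fun v => K v 0 1)) K01) (e01 : K01.F = fun v => K v 0 1)
    (h02 : MR.ok w (avg w (fun v => K v 0 2)) K02) (e02 : K02.F = fun v => K v 0 2)
    (h11 : MR.ok w (avg w (fun v => K v 1 1)) K11) (e11 : K11.F = fun v => K v 1 1)
    (h12 : MR.ok w (avg w (fun v => K v 1 2)) K12) (e12 : K12.F = fun v => K v 1 2)
    (h22 : MR.ok w (avg w (fun v => K v 2 2)) K22) (e22 : K22.F = fun v => K v 2 2)
    {e c1 c2 : ℂ} (he : MR.ok w e me) (h1 : MR.ok w c1 m1) (h2 : MR.ok w c2 m2) (i j : Fin 3) :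
    Mod w (Pm (fun i j => avg w (fun v => K v i j)) e c1 c2 i j)
      (fun v => Pm (K v) (me.F v) (m1.F v) (m2.F v) i j)
      (Prad K00 K01 K02 K11 K12 K22 me m1 m2 i j) := by
  have a01 := h01.mul hw h1
  have a02 := (h00.mul hw he).add (h02.mul hw h2)
  have a11 := (h1.star.mul hw h1).mul hw h11
  have a12 := h1.star.mul hw ((h01.star.mul hw he).add (h12.mul hw h2))
  have at' := (he.star.mul hw h2).mul hw h02
  have a22 := (((he.star.mul hw he).mul hw h00).add (at'.add at'.star)).add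
    ((h2.star.mul hw h2).mul hw h22)
  have f00 := h00.md
  have f01 := a01.md
  have f02 := a02.md
  have f11 := a11.md
  have f12 := a12.md
  have f22 := a22.md
  have g01 := a01.star.md
  have g02 := a02.star.md
  have g12 := a12.star.md
  simp only [MR.mul, MR.add, MR.star, e00, e01, e02, e11, e12, e22] at f00 f01 f02 f11 f12 f22 g01 g02 g12
  fin_cases i <;> fin_cases j
  · exact f00
  · exact f01
  · exact f02
  · exact g01
  · exact f11
  · exact f12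
  · exact g02
  · exact g12
  · exact f22

/-- averages of Hermitian matrices are Hermitian -/
theorem herm_avg {w : V → ℝ} {K : V → M3} (hK : ∀ v, Herm (K v)) :
    Herm (fun i j => avg w (fun v => K v i j)) := by
  intro i j
  show avg w (fun v => K v j i) = star (avg w (fun v => K v i j))
  rw [← avg_star]
  congr 1
  funext v
  exact hK v i j

/-- THE BLOCK INEQUALITY ON THE CELL: forms `K` (source) and `K'` (target) at the vertices, models
of the three entries of `C`, any radii `R` above `Prad`; the inequality at every vertex for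
`Phat_v = P_v - diag (row sums of R)` gives the inequality for the interpolated forms. -/
theorem cell_block {w : V → ℝ} (hw : Wts w) {K K' : V → M3} (hK : ∀ v, Herm (K' v))
    {K00 K01 K02 K11 K12 K22 me m1 m2 : MR V}
    (h00 : MR.ok w (avg w (fun v => K' v 0 0)) K00) (e00 : K00.F = fun v => K' v 0 0)
    (h01 : MR.ok w (avg w (fun v => K' v 0 1)) K01) (e01 : K01.F = fun v => K' v 0 1)
    (h02 : MR.ok w (avg w (fun v => K' v 0 2)) K02) (e02 : K02.F = fun v => K' v 0 2)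
    (h11 : MR.ok w (avg w (fun v => K' v 1 1)) K11) (e11 : K11.F = fun v => K' v 1 1)
    (h12 : MR.ok w (avg w (fun v => K' v 1 2)) K12) (e12 : K12.F = fun v => K' v 1 2)
    (h22 : MR.ok w (avg w (fun v => K' v 2 2)) K22) (e22 : K22.F = fun v => K' v 2 2)
    {e c1 c2 : ℂ} (he : MR.ok w e me) (h1 : MR.ok w c1 m1) (h2 : MR.ok w c2 m2)
    {R : Fin 3 → Fin 3 → ℝ} (hRs : ∀ i j, R i j = R j i)
    (hR : ∀ i j, Prad K00 K01 K02 K11 K12 K22 me m1 m2 i j ≤ R i j)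
    {lam : ℝ} (hl : 0 ≤ lam) {x y : Fin 3 → ℂ}
    (hv : ∀ v, qf (K v) x ≤ lam * qf (hat (Pm (K' v) (me.F v) (m1.F v) (m2.F v)) R) y) :
    qf (fun i j => avg w (fun v => K v i j)) x ≤
      lam * qf (fun i j => avg w (fun v => K' v i j)) (Cv e c1 c2 y) := by
  have hP : ∀ i j, Mod w (Pm (fun i j => avg w (fun v => K' v i j)) e c1 c2 i j)
      (fun v => Pm (K' v) (me.F v) (m1.F v) (m2.F v) i j) (R i j) := fun i j =>
    (Pm_mod hw h00 e00 h01 e01 h02 e02 h11 e11 h12 e12 h22 e22 he h1 h2 i j).trans (hR i j)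
  have h := cell_run hw hRs hP hl hv
  rw [qf_Pm (herm_avg hK)] at h
  exact h

/-- the same with arbitrary lower bounds at the vertices -/
theorem cell_block' {w : V → ℝ} (hw : Wts w) {K' : V → M3} (hK : ∀ v, Herm (K' v))
    {K00 K01 K02 K11 K12 K22 me m1 m2 : MR V}
    (h00 : MR.ok w (avg w (fun v => K' v 0 0)) K00) (e00 : K00.F = fun v => K' v 0 0)
    (h01 : MR.ok w (avg w (fun v => K' v 0 1)) K01) (e01 : K01.F = fun v => K' v 0 1)
    (h02 : MR.ok w (avg w (fun v => K' v 0 2)) K02) (e02 : K02.F = fun v => K' v 0 2)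
    (h11 : MR.ok w (avg w (fun v => K' v 1 1)) K11) (e11 : K11.F = fun v => K' v 1 1)
    (h12 : MR.ok w (avg w (fun v => K' v 1 2)) K12) (e12 : K12.F = fun v => K' v 1 2)
    (h22 : MR.ok w (avg w (fun v => K' v 2 2)) K22) (e22 : K22.F = fun v => K' v 2 2)
    {e c1 c2 : ℂ} (he : MR.ok w e me) (h1 : MR.ok w c1 m1) (h2 : MR.ok w c2 m2)
    {R : Fin 3 → Fin 3 → ℝ} (hRs : ∀ i j, R i j = R j i)
    (hR : ∀ i j, Prad K00 K01 K02 K11 K12 K22 me m1 m2 i j ≤ R i j)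
    {y : Fin 3 → ℂ} {a : V → ℝ}
    (hv : ∀ v, a v ≤ qf (hat (Pm (K' v) (me.F v) (m1.F v) (m2.F v)) R) y) :
    ∑ v, w v * a v ≤ qf (fun i j => avg w (fun v => K' v i j)) (Cv e c1 c2 y) := by
  have hP : ∀ i j, Mod w (Pm (fun i j => avg w (fun v => K' v i j)) e c1 c2 i j)
      (fun v => Pm (K' v) (me.F v) (m1.F v) (m2.F v) i j) (R i j) := fun i j =>
    (Pm_mod hw h00 e00 h01 e01 h02 e02 h11 e11 h12 e12 h22 e22 he h1 h2 i j).trans (hR i j)
  have h := cell_run' hw hRs hP hv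
  rw [qf_Pm (herm_avg hK)] at h
  exact h

end Pool.Agent.Helper90.C75
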