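import Pool.Agent.Helper42.CH.Pow
import Pool.Agent.Helper90.C75.Cub

/-!
MP_c75db0 (row BQ): all powers of a matrix with a simple eigenvalue `ν` and a pair with trace `s`
and determinant `d`, without square roots: the parameters are the same sequence `powA t` as for the
`A` cycles, with `t = 1 - 4 d / s²`, and a geometric one.
-/

set_option autoImplicit false

namespace Pool.Agent.Helper90.C75

open Matrix Pool.Agent.Helper42.CH

variable {n : Type*} [Fintype n] [DecidableEq n]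

/-- projector to the simple eigenvalue -/
noncomputable def prN (W : Matrix n n ℂ) (ν s d : ℂ) : Matrix n n ℂ :=
  (ν ^ 2 - s * ν + d)⁻¹ • (W * W - s • W + d • (1 : Matrix n n ℂ))

/-- complementary projector -/
noncomputable def prQ (W : Matrix n n ℂ) (ν s d : ℂ) : Matrix n n ℂ := 1 - prN W ν s d

/-- the traceless part of the pair, divided by half of its trace -/
noncomputable def prS (W : Matrix n n ℂ) (ν s d : ℂ) : Matrix n n ℂ :=
  (2 / s) • (W * prQ W ν s d) - prQ W ν s d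

/-- the parameter of the simple eigenvalue, `g = 2 ν / s` -/
noncomputable def sqR (g t : ℂ) : ℕ → ℂ
  | 0 => g
  | q + 1 => g * sqR g t q / (1 + powA t q)

/-- the scalar -/
noncomputable def sqC (s t : ℂ) : ℕ → ℂ
  | 0 => s / 2
  | q + 1 => s / 2 * sqC s t q * (1 + powA t q)

variable {W : Matrix n n ℂ} {ν s d : ℂ}

theorem pr_rel (hs : s ≠ 0) (hD : ν ^ 2 - s * ν + d ≠ 0)
    (hmin : (W - ν • (1 : Matrix n n ℂ)) *
      (W * W - s • W + d • (1 : Matrix n n ℂ)) = 0) :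
    W * prN W ν s d = ν • prN W ν s d ∧
    W * prQ W ν s d = (s / 2) • (prS W ν s d + prQ W ν s d) ∧
    W * prS W ν s d = (s / 2) • (prS W ν s d + (1 - 4 * d / s ^ 2) • prQ W ν s d) := by
  set D := ν ^ 2 - s * ν + d with hDd
  set C := W * W - s • W + d • (1 : Matrix n n ℂ) with hC
  have hP : prN W ν s d = D⁻¹ • C := rfl
  have hWC : W * C = ν • C := by
    have : W * C - ν • C = 0 := by
      rw [← hmin, sub_mul, smul_mul_assoc, one_mul]
    exact sub_eq_zero.1 this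
  have h1 : W * prN W ν s d = ν • prN W ν s d := by
    rw [hP, mul_smul_comm, hWC, smul_smul, smul_smul, mul_comm]
  have h2 : W * prQ W ν s d = (s / 2) • (prS W ν s d + prQ W ν s d) := by
    unfold prS
    rw [sub_add_cancel, smul_smul]
    have : s / 2 * (2 / s) = 1 := by field_simp
    rw [this, one_smul]
  refine ⟨h1, h2, ?_⟩
  have hC0 : C * prQ W ν s d = 0 := by
    have hCC : C * C = D • C := by
      have hcomm : W * W * C = (ν ^ 2) • C := by
        rw [mul_assoc, hWC, mul_smul_comm, hWC, smul_smul]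
        congr 1; ring
      have : C * C = W * W * C - s • (W * C) + d • C := by
        conv_lhs => rw [hC]
        rw [add_mul, sub_mul, smul_mul_assoc, smul_mul_assoc, one_mul, ← hC]
      rw [this, hcomm, hWC]
      ext i j
      simp only [Matrix.add_apply, Matrix.sub_apply, Matrix.smul_apply, smul_eq_mul, hDd]
      ring
    unfold prQ
    rw [hP, mul_sub, mul_one, mul_smul_comm, hCC, smul_smul, inv_mul_cancel₀ hD, one_smul,
      sub_self]
  have hWWQ : W * (W * prQ W ν s d) = s • (W * prQ W ν s d) - d • prQ W ν s d := by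
    have h3 : C * prQ W ν s d = W * (W * prQ W ν s d) - s • (W * prQ W ν s d)
        + d • prQ W ν s d := by
      rw [hC, add_mul, sub_mul, smul_mul_assoc, smul_mul_assoc, one_mul, mul_assoc]
    rw [hC0] at h3
    have h4 : W * (W * prQ W ν s d) = (0 : Matrix n n ℂ) + s • (W * prQ W ν s d)
        - d • prQ W ν s d := by
      rw [h3]; abel
    rw [h4, zero_add]
  have h5 : W * prS W ν s d = (2 / s) • (W * (W * prQ W ν s d)) - W * prQ W ν s d := by
    unfold prS
    rw [mul_sub, mul_smul_comm]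
  rw [h5, hWWQ, h2]
  ext i j
  simp only [Matrix.add_apply, Matrix.sub_apply, Matrix.smul_apply, smul_eq_mul]
  field_simp
  ring

/-- ALL POWERS: `W^(q+1) = c_q (N + A_q Q + ρ_q P)` with `A_q = powA t q`, `t = 1 - 4d/s²`,
`ρ_q = sqR (2ν/s) t q` -/
theorem sq_pow (hs : s ≠ 0) (hD : ν ^ 2 - s * ν + d ≠ 0)
    (hmin : (W - ν • (1 : Matrix n n ℂ)) *
      (W * W - s • W + d • (1 : Matrix n n ℂ)) = 0)
    (hr : ∀ q, 1 + powA (1 - 4 * d / s ^ 2) q ≠ 0) (q : ℕ) :
    sqC s (1 - 4 * d / s ^ 2) q ≠ 0 ∧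
    W ^ (q + 1) = sqC s (1 - 4 * d / s ^ 2) q • (prS W ν s d
      + powA (1 - 4 * d / s ^ 2) q • prQ W ν s d
      + sqR (2 * ν / s) (1 - 4 * d / s ^ 2) q • prN W ν s d) := by
  obtain ⟨r1, r2, r3⟩ := pr_rel hs hD hmin
  set t := 1 - 4 * d / s ^ 2 with ht
  induction q with
  | zero =>
    refine ⟨by simpa [sqC] using hs, ?_⟩
    simp only [sqC, powA, sqR, zero_add, pow_one, one_smul]
    have h1 : W = W * prQ W ν s d + W * prN W ν s d := by
      rw [← mul_add]
      unfold prQ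
      rw [sub_add_cancel, mul_one]
    conv_lhs => rw [h1, r1, r2]
    rw [smul_add, smul_add, smul_add, smul_smul]
    congr 2
    field_simp
  | succ q ih =>
    obtain ⟨ihc, ihW⟩ := ih
    set A := powA t q with hA
    set c := sqC s t q with hc
    set ρ := sqR (2 * ν / s) t q with hρ
    have hne : 1 + A ≠ 0 := hr q
    refine ⟨?_, ?_⟩
    · simp only [sqC]
      exact mul_ne_zero (mul_ne_zero (div_ne_zero hs two_ne_zero) ihc) hne
    · rw [pow_succ', ihW, mul_smul_comm, mul_add, mul_add, mul_smul_comm, mul_smul_comm, r1, r2,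
        r3]
      simp only [sqC, powA, sqR]
      rw [← hA, ← hc, ← hρ]
      ext i j
      simp only [Matrix.add_apply, Matrix.smul_apply, smul_eq_mul]
      field_simp
      ring

/-- Cayley-Hamilton factored at a root -/
theorem cay3_root (W : Matrix (Fin 3) (Fin 3) ℂ) (ν : ℂ)
    (hν : ν ^ 3 - W.trace * ν ^ 2 + e2 W * ν - W.det = 0) :
    (W - ν • (1 : Matrix (Fin 3) (Fin 3) ℂ)) *
      (W * W - (W.trace - ν) • W + (ν ^ 2 - W.trace * ν + e2 W) •
        (1 : Matrix (Fin 3) (Fin 3) ℂ)) = 0 := by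
  have h := cay3 W
  have h1 : (W - ν • (1 : Matrix (Fin 3) (Fin 3) ℂ)) *
      (W * W - (W.trace - ν) • W + (ν ^ 2 - W.trace * ν + e2 W) • (1 : Matrix (Fin 3) (Fin 3) ℂ))
      = W * W * W - (W.trace - ν) • (W * W) + (ν ^ 2 - W.trace * ν + e2 W) • W
        - ν • (W * W) + (ν * (W.trace - ν)) • W
        - (ν * (ν ^ 2 - W.trace * ν + e2 W)) • (1 : Matrix (Fin 3) (Fin 3) ℂ) := by
    simp only [sub_mul, mul_add, mul_sub, mul_smul_comm, smul_mul_assoc, mul_one, one_mul,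
      mul_assoc]
    module
  rw [h1]
  have h2 : W * W * W - (W.trace - ν) • (W * W) + (ν ^ 2 - W.trace * ν + e2 W) • W
      - ν • (W * W) + (ν * (W.trace - ν)) • W
      - (ν * (ν ^ 2 - W.trace * ν + e2 W)) • (1 : Matrix (Fin 3) (Fin 3) ℂ)
      = W * W * W - W.trace • (W * W) + e2 W • W - W.det • (1 : Matrix (Fin 3) (Fin 3) ℂ) := by
    ext i j
    simp only [Matrix.add_apply, Matrix.sub_apply, Matrix.smul_apply, smul_eq_mul]
    linear_combination (-(1 : Matrix (Fin 3) (Fin 3) ℂ) i j) * hν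
  rw [h2, h]

/-- the same for a `3 × 3` matrix and a root `ν` of its characteristic polynomial -/
theorem sq_pow3 (W : Matrix (Fin 3) (Fin 3) ℂ) (ν : ℂ)
    (hν : ν ^ 3 - W.trace * ν ^ 2 + e2 W * ν - W.det = 0) (hs : W.trace ≠ ν)
    (hD : 3 * ν ^ 2 - 2 * W.trace * ν + e2 W ≠ 0)
    (hr : ∀ q, 1 + powA (1 - 4 * (ν ^ 2 - W.trace * ν + e2 W) / (W.trace - ν) ^ 2) q ≠ 0) (q : ℕ) :
    ∃ c : ℂ, c ≠ 0 ∧ W ^ (q + 1) = c • (prS W ν (W.trace - ν) (ν ^ 2 - W.trace * ν + e2 W)
      + powA (1 - 4 * (ν ^ 2 - W.trace * ν + e2 W) / (W.trace - ν) ^ 2) q •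
        prQ W ν (W.trace - ν) (ν ^ 2 - W.trace * ν + e2 W)
      + sqR (2 * ν / (W.trace - ν))
          (1 - 4 * (ν ^ 2 - W.trace * ν + e2 W) / (W.trace - ν) ^ 2) q •
        prN W ν (W.trace - ν) (ν ^ 2 - W.trace * ν + e2 W)) := by
  have hD' : ν ^ 2 - (W.trace - ν) * ν + (ν ^ 2 - W.trace * ν + e2 W) ≠ 0 := by
    rw [cub_der]; exact hD
  obtain ⟨h1, h2⟩ := sq_pow (sub_ne_zero.2 hs) hD' (cay3_root W ν hν) hr q
  exact ⟨_, h1, h2⟩

/-- `t = B / (s χ'(ν))²`, `B` the discriminant -/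
theorem sq_disc (τ τ' δ ν : ℂ) (hν : ν ^ 3 - τ * ν ^ 2 + τ' * ν - δ = 0) (hs : τ ≠ ν) :
    (1 - 4 * (ν ^ 2 - τ * ν + τ') / (τ - ν) ^ 2) * ((τ - ν) * (3 * ν ^ 2 - 2 * τ * ν + τ')) ^ 2 =
      τ ^ 2 * τ' ^ 2 - 4 * τ ^ 3 * δ - 4 * τ' ^ 3 + 18 * τ * τ' * δ - 27 * δ ^ 2 := by
  have hs' : τ - ν ≠ 0 := sub_ne_zero.2 hs
  have hδ : δ = ν ^ 3 - τ * ν ^ 2 + τ' * ν := by linear_combination -hν
  rw [hδ]
  field_simp
  ring

end Pool.Agent.Helper90.C75
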